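import Mathlib

/-!
# Geometric series, dynamic programming for their products, periodicity of the noise
-/

namespace Pool.Agent.X13.TT

open Finset PowerSeries

noncomputable section

/-- `1/(1-q^d)` -/
def geo (d : ℕ) : ℤ⟦X⟧ := PowerSeries.mk fun n => if d ∣ n then 1 else 0

theorem one_sub_mul_geo {d : ℕ} (hd : 0 < d) : (1 - (X : ℤ⟦X⟧) ^ d) * geo d = 1 := by
  ext n
  rw [sub_mul, one_mul, map_sub, coeff_X_pow_mul', geo, coeff_mk]
  by_cases h : d ≤ n
  · rw [if_pos h, coeff_mk]
    have : (d ∣ n - d) ↔ d ∣ n := by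
      constructor
      · intro h2
        have := Nat.dvd_add h2 (dvd_refl d)
        rwa [Nat.sub_add_cancel h] at this
      · intro h2
        exact Nat.dvd_sub h2 (dvd_refl d)
    simp only [this, sub_self]
    rw [coeff_one, if_neg (by omega)]
  · rw [if_neg h, coeff_one]
    rcases Nat.eq_zero_or_pos n with rfl | hn
    · simp
    · rw [if_neg (fun h2 => h (Nat.le_of_dvd hn h2)), if_neg (by omega)]; simp

theorem geo_nonneg (d n : ℕ) : 0 ≤ coeff n (geo d) := by
  rw [geo, coeff_mk]; split_ifs <;> norm_num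

/-- all coefficients are nonnegative -/
def NN (φ : ℤ⟦X⟧) : Prop := ∀ n, 0 ≤ coeff n φ

theorem NN.mul {φ ψ : ℤ⟦X⟧} (h1 : NN φ) (h2 : NN ψ) : NN (φ * ψ) := fun n => by
  rw [coeff_mul]
  exact sum_nonneg fun p _ => mul_nonneg (h1 _) (h2 _)

theorem NN.one : NN 1 := fun n => by rw [coeff_one]; split_ifs <;> norm_num

theorem NN.geo (d : ℕ) : NN (geo d) := fun n => geo_nonneg d n

theorem NN.prod {ι : Type*} (s : Finset ι) (f : ι → ℤ⟦X⟧) (h : ∀ i ∈ s, NN (f i)) :
    NN (∏ i ∈ s, f i) := by
  classical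
  induction s using Finset.induction_on with
  | empty => simpa using NN.one
  | insert i s hi ih =>
    rw [prod_insert hi]
    exact (h i (mem_insert_self _ _)).mul (ih fun j hj => h j (mem_insert_of_mem hj))

theorem coeff_mul_geo {d : ℕ} (hd : 0 < d) (φ : ℤ⟦X⟧) (n : ℕ) :
    coeff n (φ * geo d) = coeff n φ + if d ≤ n then coeff (n - d) (φ * geo d) else 0 := by
  have h : φ * geo d = φ + X ^ d * (φ * geo d) := by
    have := one_sub_mul_geo hd
    linear_combination φ * this
  conv_lhs => rw [h]
  rw [map_add, coeff_X_pow_mul']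

/-! ### dynamic programming -/

end

/-- auxiliary -/
def dpAux (d : ℕ) : List ℤ → List ℤ → List ℤ
  | [], acc => acc
  | x :: xs, acc => dpAux d xs ((x + acc.getD (d - 1) 0) :: acc)

/-- coefficients of `φ/(1-q^d)` from those of `φ` -/
def dp (d : ℕ) (l : List ℤ) : List ℤ := (dpAux d l []).reverse

/-- `l` lists the first coefficients of `φ` -/
def Rep (l : List ℤ) (φ : ℤ⟦X⟧) : Prop := ∀ i, i < l.length → coeff i φ = l.getD i 0

theorem dpAux_spec {d : ℕ} (hd : 0 < d) (φ : ℤ⟦X⟧) : ∀ (xs acc : List ℤ),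
    (∀ i, i < xs.length → coeff (acc.length + i) φ = xs.getD i 0) →
    (∀ i, i < acc.length → coeff i (φ * geo d) = acc.getD (acc.length - 1 - i) 0) →
    (dpAux d xs acc).length = acc.length + xs.length ∧
    ∀ i, i < (dpAux d xs acc).length →
      coeff i (φ * geo d) = (dpAux d xs acc).getD ((dpAux d xs acc).length - 1 - i) 0 := by
  intro xs
  induction xs with
  | nil =>
    intro acc _ h2
    simp only [dpAux, List.length_nil, add_zero, true_and]
    exact h2
  | cons x xs ih =>
    intro acc h1 h2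
    rw [dpAux]
    have h0 : coeff acc.length φ = x := by
      have := h1 0 (by simp)
      simpa using this
    have hnew : coeff acc.length (φ * geo d) = x + acc.getD (d - 1) 0 := by
      rw [coeff_mul_geo hd, h0]
      congr 1
      by_cases hle : d ≤ acc.length
      · rw [if_pos hle, h2 (acc.length - d) (by omega)]
        congr 1
        omega
      · rw [if_neg hle, List.getD_eq_default _ _ (by omega)]
    have := ih ((x + acc.getD (d - 1) 0) :: acc) ?_ ?_
    · obtain ⟨ha, hb⟩ := this
      refine ⟨?_, hb⟩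
      rw [ha]; simp; omega
    · intro i hi
      have := h1 (i + 1) (by simp; omega)
      rw [List.length_cons, add_assoc, add_comm 1 i, this]
      simp
    · intro i hi
      rw [List.length_cons] at hi ⊢
      rcases Nat.lt_succ_iff_lt_or_eq.mp hi with h | h
      · rw [h2 i h]
        have : acc.length + 1 - 1 - i = (acc.length - 1 - i) + 1 := by omega
        rw [this, List.getD_cons_succ]
      · subst h
        rw [hnew]
        have : acc.length + 1 - 1 - acc.length = 0 := by omega
        rw [this, List.getD_cons_zero]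

theorem dp_length (d : ℕ) (l : List ℤ) : (dp d l).length = l.length := by
  have : ∀ (xs acc : List ℤ), (dpAux d xs acc).length = acc.length + xs.length := by
    intro xs
    induction xs with
    | nil => intro acc; simp [dpAux]
    | cons x xs ih => intro acc; rw [dpAux, ih]; simp; omega
  rw [dp, List.length_reverse, this]; simp

theorem Rep.dp {d : ℕ} (hd : 0 < d) {l : List ℤ} {φ : ℤ⟦X⟧} (h : Rep l φ) :
    Rep (dp d l) (φ * geo d) := by
  intro i hi
  have hlen := dp_length d l
  have h1 := dpAux_spec hd φ l [] (by intro i hi; simpa using h i hi) (by simp)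
  rw [hlen] at hi
  have hl2 : (dpAux d l []).length = l.length := by simpa using h1.1
  rw [h1.2 i (by omega), TT.dp, hl2]
  rw [List.getD_eq_getElem?_getD, List.getD_eq_getElem?_getD, List.getElem?_reverse (by omega), hl2]

/-- repeated steps -/
def dps : List ℕ → List ℤ → List ℤ
  | [], l => l
  | d :: ds, l => dps ds (dp d l)

/-- product of the geometric series over a list -/
noncomputable def geoL : List ℕ → ℤ⟦X⟧
  | [] => 1
  | d :: ds => geo d * geoL ds

theorem Rep.dps : ∀ (ds : List ℕ) (_ : ∀ d ∈ ds, 0 < d) (l : List ℤ) (φ : ℤ⟦X⟧), Rep l φ →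
    Rep (dps ds l) (φ * geoL ds) := by
  intro ds
  induction ds with
  | nil => intro _ l φ h; simpa [TT.dps, geoL] using h
  | cons d ds ih =>
    intro hd l φ h
    rw [TT.dps, geoL, ← mul_assoc]
    exact ih (fun e he => hd e (List.mem_cons_of_mem _ he)) _ _
      (h.dp (hd d (by simp)))

theorem dps_length : ∀ (ds : List ℕ) (l : List ℤ), (dps ds l).length = l.length := by
  intro ds
  induction ds with
  | nil => intro l; rfl
  | cons d ds ih => intro l; rw [dps, ih, dp_length]

theorem NN.geoL : ∀ ds : List ℕ, NN (geoL ds) := by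
  intro ds
  induction ds with
  | nil => exact NN.one
  | cons d ds ih => exact (NN.geo d).mul ih

/-! ### periodicity -/

theorem zero_of_period (d : ℕ) (hd : 0 < d) (h : ℕ → ℤ) (hp : ∀ m, h (m + d) = h m)
    (h0 : ∀ m, m < d → h m = 0) : ∀ m, h m = 0 := by
  intro m
  induction m using Nat.strong_induction_on with
  | _ m ih =>
    by_cases hm : m < d
    · exact h0 m hm
    · have := hp (m - d)
      rw [Nat.sub_add_cancel (by omega)] at this
      rw [this]
      exact ih _ (by omega)

/-- difference operator -/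
def dl (d : ℕ) (g : ℕ → ℤ) : ℕ → ℤ := fun m => g (m + d) - g m

theorem zero_of_four (d1 d2 d3 d4 : ℕ) (h1 : 0 < d1) (h2 : 0 < d2) (h3 : 0 < d3) (h4 : 0 < d4)
    (g : ℕ → ℤ) (hz : ∀ m, dl d1 (dl d2 (dl d3 (dl d4 g))) m = 0)
    (h0 : ∀ m, m < d1 + d2 + d3 + d4 → g m = 0) : ∀ m, g m = 0 := by
  have e3 : ∀ m, dl d2 (dl d3 (dl d4 g)) m = 0 := by
    apply zero_of_period d1 h1
    · intro m
      have := hz m
      unfold dl at this ⊢
      linarith
    · intro m hm
      simp only [dl]
      rw [h0 m (by omega), h0 (m + d4) (by omega), h0 (m + d3) (by omega), h0 (m + d2) (by omega),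
        h0 (m + d3 + d4) (by omega), h0 (m + d2 + d4) (by omega), h0 (m + d2 + d3) (by omega),
        h0 (m + d2 + d3 + d4) (by omega)]
      ring
  have e2 : ∀ m, dl d3 (dl d4 g) m = 0 := by
    apply zero_of_period d2 h2
    · intro m
      have := e3 m
      unfold dl at this ⊢
      linarith
    · intro m hm
      simp only [dl]
      rw [h0 m (by omega), h0 (m + d4) (by omega), h0 (m + d3) (by omega),
        h0 (m + d3 + d4) (by omega)]
      ring
  have e1 : ∀ m, dl d4 g m = 0 := by
    apply zero_of_period d3 h3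
    · intro m
      have := e2 m
      unfold dl at this ⊢
      linarith
    · intro m hm
      simp only [dl]
      rw [h0 m (by omega), h0 (m + d4) (by omega)]
      ring
  apply zero_of_period d4 h4
  · intro m
    have := e1 m
    unfold dl at this
    linarith
  · intro m hm
    exact h0 m (by omega)

theorem coeff_step {d : ℕ} (hd : 0 < d) (φ : ℤ⟦X⟧) (m : ℕ) :
    coeff (m + d) (φ * geo d) - coeff m (φ * geo d) = coeff (m + d) φ := by
  rw [coeff_mul_geo hd φ (m + d), if_pos (by omega), Nat.add_sub_cancel]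
  ring

/-- coefficient sequence of `1/∏(1-q^{d_i})` -/
noncomputable def cc (d1 d2 d3 d4 : ℕ) (m : ℕ) : ℤ := coeff m (geoL [d1, d2, d3, d4])

theorem cc_dl (d1 d2 d3 d4 : ℕ) (h1 : 0 < d1) (h2 : 0 < d2) (h3 : 0 < d3) (h4 : 0 < d4) (m : ℕ) :
    dl d1 (dl d2 (dl d3 (dl d4 (cc d1 d2 d3 d4)))) m = 0 := by
  have e4 : dl d4 (cc d1 d2 d3 d4) = fun m => coeff (m + d4) (geo d1 * geo d2 * geo d3) := by
    funext m
    have := coeff_step h4 (geo d1 * geo d2 * geo d3) m
    unfold dl cc
    rw [← this]
    simp only [geoL, mul_one, mul_assoc]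
  have e3 : dl d3 (dl d4 (cc d1 d2 d3 d4)) = fun m => coeff (m + d3 + d4) (geo d1 * geo d2) := by
    funext m
    rw [e4]
    have := coeff_step h3 (geo d1 * geo d2) (m + d4)
    unfold dl
    simp only
    rw [show m + d3 + d4 = m + d4 + d3 by ring, ← this]
  have e2 : dl d2 (dl d3 (dl d4 (cc d1 d2 d3 d4)))
      = fun m => coeff (m + d2 + d3 + d4) (geo d1) := by
    funext m
    rw [e3]
    have := coeff_step h2 (geo d1) (m + d3 + d4)
    unfold dl
    simp only
    rw [show m + d2 + d3 + d4 = m + d3 + d4 + d2 by ring, ← this]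
  rw [e2]
  unfold dl
  simp only
  have := coeff_step h1 1 (m + d2 + d3 + d4)
  rw [one_mul] at this
  rw [show m + d1 + d2 + d3 + d4 = m + d2 + d3 + d4 + d1 by ring, this, coeff_one,
    if_neg (by omega)]

/-- the noise -/
noncomputable def nz (d1 d2 d3 d4 : ℕ) (m : ℕ) : ℤ :=
  48 * (d1 * d2 * d3 * d4) * cc d1 d2 d3 d4 m - ((2 * m + (d1 + d2 + d3 + d4)) ^ 3
    - (d1 ^ 2 + d2 ^ 2 + d3 ^ 2 + d4 ^ 2) * (2 * m + (d1 + d2 + d3 + d4)))

theorem nz_dl (d1 d2 d3 d4 : ℕ) (h1 : 0 < d1) (h2 : 0 < d2) (h3 : 0 < d3) (h4 : 0 < d4) (m : ℕ) :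
    dl d1 (dl d2 (dl d3 (dl d4 (nz d1 d2 d3 d4)))) m = -(384 * (d1 * d2 * d3 * d4) * 0 : ℤ) := by
  have := cc_dl d1 d2 d3 d4 h1 h2 h3 h4 m
  unfold dl at this ⊢
  unfold nz
  push_cast
  linear_combination (48 * (d1 * d2 * d3 * d4) : ℤ) * this

/-- the integer function verified by the kernel: noise on the initial segment computed from `L` -/
def nzL (d1 d2 d3 d4 : ℕ) (m : ℕ) (x : ℤ) : ℤ :=
  48 * (d1 * d2 * d3 * d4) * x - ((2 * m + (d1 + d2 + d3 + d4)) ^ 3
    - (d1 ^ 2 + d2 ^ 2 + d3 ^ 2 + d4 ^ 2) * (2 * m + (d1 + d2 + d3 + d4)))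

/-- list of noise values -/
def nzList (d1 d2 d3 d4 : ℕ) : ℕ → List ℤ → List ℤ
  | _, [] => []
  | m, x :: xs => nzL d1 d2 d3 d4 m x :: nzList d1 d2 d3 d4 (m + 1) xs

theorem nzList_length (d1 d2 d3 d4 : ℕ) : ∀ (m : ℕ) (l : List ℤ),
    (nzList d1 d2 d3 d4 m l).length = l.length := by
  intro m l
  induction l generalizing m with
  | nil => rfl
  | cons x xs ih => simp [nzList, ih]

theorem nzList_getD (d1 d2 d3 d4 : ℕ) : ∀ (l : List ℤ) (m i : ℕ), i < l.length →
    (nzList d1 d2 d3 d4 m l).getD i 0 = nzL d1 d2 d3 d4 (m + i) (l.getD i 0) := by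
  intro l
  induction l with
  | nil => intro m i hi; simp at hi
  | cons x xs ih =>
    intro m i hi
    cases i with
    | zero => simp [nzList]
    | succ i =>
      rw [nzList, List.getD_cons_succ, List.getD_cons_succ, ih (m + 1) i (by simpa using hi)]
      rw [show m + 1 + i = m + (i + 1) by ring]

/-- initial data `[1,0,0,...]` of length `n+1` -/
def unitL (n : ℕ) : List ℤ := 1 :: List.replicate n 0

theorem Rep_unitL (n : ℕ) : Rep (unitL n) 1 := by
  intro i hi
  cases i with
  | zero => simp [unitL]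
  | succ i =>
    rw [unitL, List.getD_cons_succ, coeff_one, if_neg (by omega)]
    simp only [unitL, List.length_cons, List.length_replicate] at hi
    rw [List.getD_eq_getElem?_getD, List.getElem?_replicate, if_pos (by omega)]
    rfl

/-- kernel check: the noise list `l` (length `D + s`) repeats after `D` and is bounded by `η` -/
def chk (D η : ℕ) (l : List ℤ) : Bool :=
  (l.take D).all (fun x => decide (x.natAbs ≤ η)) && decide (l.drop D = l.take (l.length - D))

theorem noise (d1 d2 d3 d4 η : ℕ) (h1 : 0 < d1) (h2 : 0 < d2) (h3 : 0 < d3) (h4 : 0 < d4)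
    (h : chk (d1 * d2 * d3 * d4) η
      (nzList d1 d2 d3 d4 0 (dps [d1, d2, d3, d4]
        (unitL (d1 * d2 * d3 * d4 + (d1 + d2 + d3 + d4) - 1)))) = true) (m : ℕ) :
    |nz d1 d2 d3 d4 m| ≤ η := by
  set D := d1 * d2 * d3 * d4 with hD
  set s := d1 + d2 + d3 + d4 with hs
  have hD0 : 0 < D := by positivity
  set L := dps [d1, d2, d3, d4] (unitL (D + s - 1)) with hL
  have hLlen : L.length = D + s := by
    rw [hL, dps_length, unitL, List.length_cons, List.length_replicate]; omega
  have hRep : Rep L (geoL [d1, d2, d3, d4]) := by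
    have := Rep.dps [d1, d2, d3, d4] (by simp; omega) _ _ (Rep_unitL (D + s - 1))
    rwa [one_mul] at this
  set N := nzList d1 d2 d3 d4 0 L with hN
  have hNlen : N.length = D + s := by rw [hN, nzList_length, hLlen]
  have hval : ∀ i, i < D + s → nz d1 d2 d3 d4 i = N.getD i 0 := by
    intro i hi
    rw [hN, nzList_getD _ _ _ _ _ _ _ (by rw [hLlen]; exact hi), zero_add,
      ← hRep i (by rw [hLlen]; exact hi)]
    rfl
  rw [chk, Bool.and_eq_true, decide_eq_true_eq, List.all_eq_true] at h
  obtain ⟨hb, hp⟩ := h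
  rw [hNlen, Nat.add_sub_cancel_left] at hp
  have hper0 : ∀ i, i < s → nz d1 d2 d3 d4 (i + D) - nz d1 d2 d3 d4 i = 0 := by
    intro i hi
    rw [hval (i + D) (by omega), hval i (by omega)]
    have e1 : N.getD (i + D) 0 = (N.drop D).getD i 0 := by
      rw [List.getD_eq_getElem?_getD, List.getD_eq_getElem?_getD, List.getElem?_drop, add_comm]
    have e2 : N.getD i 0 = (N.take s).getD i 0 := by
      rw [List.getD_eq_getElem?_getD, List.getD_eq_getElem?_getD, List.getElem?_take_of_lt hi]
    rw [e1, e2, hp, sub_self]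
  have hper : ∀ m, dl D (nz d1 d2 d3 d4) m = 0 := by
    apply zero_of_four d1 d2 d3 d4 h1 h2 h3 h4
    · intro m
      have a1 := nz_dl d1 d2 d3 d4 h1 h2 h3 h4 m
      have a2 := nz_dl d1 d2 d3 d4 h1 h2 h3 h4 (m + D)
      unfold dl at a1 a2 ⊢
      rw [mul_zero, neg_zero] at a1 a2
      simp only [show ∀ x y : ℕ, x + D + y = x + y + D from fun x y => by ring] at a2
      linear_combination a2 - a1
    · intro m hm
      exact hper0 m hm
  have hbound : ∀ m, m < D → |nz d1 d2 d3 d4 m| ≤ η := by
    intro m hm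
    rw [hval m (by omega)]
    have hmem : N.getD m 0 ∈ N.take D := by
      have : N.getD m 0 = (N.take D).getD m 0 := by
        rw [List.getD_eq_getElem?_getD, List.getD_eq_getElem?_getD, List.getElem?_take_of_lt hm]
      rw [this, List.getD_eq_getElem _ _ (by rw [List.length_take, hNlen]; omega)]
      exact List.getElem_mem _
    have := hb _ hmem
    rw [decide_eq_true_eq] at this
    rw [Int.abs_eq_natAbs]
    exact_mod_cast this
  induction m using Nat.strong_induction_on with
  | _ m ih =>
    by_cases hm : m < D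
    · exact hbound m hm
    · have := hper (m - D)
      unfold dl at this
      rw [Nat.sub_add_cancel (by omega)] at this
      have h2 := ih (m - D) (by omega)
      have h3 : nz d1 d2 d3 d4 m = nz d1 d2 d3 d4 (m - D) := by linarith
      rw [h3]; exact h2

end Pool.Agent.X13.TT
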