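import Mathlib

/-!
# Truncated theta series over a product with four pairwise coprime parts: the analytic core

`P4 Q T = T^3 - Q T` (with `T = 2m+s`) is `48 D` times the polynomial part of the coefficients of
`1/((1-q^{d1})...(1-q^{d4}))`, where `D = ∏ d_i`, `s = ∑ d_i`, `Q = ∑ d_i^2`.
`G4` is its alternating (Boole) summation along a quadratic progression.
-/

namespace Pool.Agent.X13.TT

open Finset

/-- `T^3 - Q T` -/
def P4 (Q T : ℚ) : ℚ := T ^ 3 - Q * T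

/-- alternating summation of `P4` along `2 (N - A w^2)` -/
def G4 (A Q N v : ℚ) : ℚ :=
  4 * (N - A * (v ^ 2 - 1 / 4)) ^ 3 - Q * (N - A * (v ^ 2 - 1 / 4))
    - 12 * A ^ 2 * (v ^ 2 - 1 / 4) * ((N - A * (v ^ 2 - 1 / 4)) + A)

theorem G4_add (A Q N v : ℚ) :
    G4 A Q N v + G4 A Q N (v + 1) = P4 Q (2 * (N - A * (v + 1 / 2) ^ 2)) := by
  unfold G4 P4; ring

theorem G4_sum (A Q N v : ℚ) (J : ℕ) :
    ∑ j ∈ range J, (-1 : ℚ) ^ j * P4 Q (2 * (N - A * (v + j + 1 / 2) ^ 2))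
      = G4 A Q N v - (-1) ^ J * G4 A Q N (v + J) := by
  induction J with
  | zero => simp
  | succ J ih =>
    rw [sum_range_succ, ih]
    have := G4_add A Q N (v + J)
    rw [← this]
    push_cast
    rw [show v + ((J : ℚ) + 1) = v + J + 1 by ring]
    rw [pow_succ]; ring

/-- bound for the boundary term -/
def R4 (A Q v : ℚ) : ℚ := 8 * A ^ 3 * v ^ 3 + 12 * A ^ 3 * v ^ 2 + 2 * |Q - 3 * A ^ 2| * A * v

theorem cubic_bound (x a : ℚ) (ha : 0 ≤ a) (hx : |x| ≤ 2 * a) :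
    |x ^ 3 - 3 * a ^ 2 * x| ≤ 2 * a ^ 3 := by
  rw [abs_le] at hx ⊢
  constructor
  · nlinarith [mul_nonneg (sq_nonneg (a - x)) (show 0 ≤ 2 * a + x by linarith [hx.1])]
  · nlinarith [mul_nonneg (sq_nonneg (a + x)) (show 0 ≤ 2 * a - x by linarith [hx.2])]

theorem G4_bound (A Q N v s : ℚ) (hA : 0 < A) (hs : 0 ≤ s)
    (hv : A + s ≤ 2 * A * v)
    (h1 : A * (v - 1 / 2) ^ 2 ≤ N - s / 2) (h2 : N - s / 2 ≤ A * (v + 1 / 2) ^ 2) :
    |G4 A Q N v| ≤ R4 A Q v := by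
  have hv0 : 0 < v := by
    by_contra h
    push Not at h
    nlinarith
  set X := N - A * (v ^ 2 - 1 / 4) with hX
  have hXu : X ≤ 2 * (A * v) := by
    have : A * (v + 1 / 2) ^ 2 = A * v ^ 2 + A * v + A / 4 := by ring
    have e2 : X = N - s / 2 + s / 2 - A * v ^ 2 + A / 4 := by rw [hX]; ring
    rw [e2]
    nlinarith
  have hXl : -(2 * (A * v)) ≤ X := by
    have : A * (v - 1 / 2) ^ 2 = A * v ^ 2 - A * v + A / 4 := by ring
    have e2 : X = N - s / 2 + s / 2 - A * v ^ 2 + A / 4 := by rw [hX]; ring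
    rw [e2]
    nlinarith
  have hXabs : |X| ≤ 2 * (A * v) := abs_le.mpr ⟨hXl, hXu⟩
  have hc := cubic_bound X (A * v) (by positivity) hXabs
  have hsplit : G4 A Q N v = 4 * (X ^ 3 - 3 * (A * v) ^ 2 * X) - (Q - 3 * A ^ 2) * X
      - 12 * A ^ 3 * (v ^ 2 - 1 / 4) := by
    unfold G4
    rw [← hX]; ring
  have hAv : A + s ≤ 2 * A * v := hv
  have hv12 : 1 / 2 ≤ v := by
    by_contra h
    push Not at h
    nlinarith
  have h3 : |(Q - 3 * A ^ 2) * X| ≤ |Q - 3 * A ^ 2| * (2 * (A * v)) := by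
    rw [abs_mul]
    exact mul_le_mul_of_nonneg_left hXabs (abs_nonneg _)
  have h4 : |12 * A ^ 3 * (v ^ 2 - 1 / 4)| ≤ 12 * A ^ 3 * v ^ 2 := by
    rw [abs_of_nonneg]
    · nlinarith [pow_pos hA 3]
    · have : 0 ≤ v ^ 2 - 1 / 4 := by nlinarith
      positivity
  calc |G4 A Q N v| = |4 * (X ^ 3 - 3 * (A * v) ^ 2 * X) - (Q - 3 * A ^ 2) * X
      - 12 * A ^ 3 * (v ^ 2 - 1 / 4)| := by rw [hsplit]
    _ ≤ |4 * (X ^ 3 - 3 * (A * v) ^ 2 * X) - (Q - 3 * A ^ 2) * X|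
        + |12 * A ^ 3 * (v ^ 2 - 1 / 4)| := abs_sub _ _
    _ ≤ |4 * (X ^ 3 - 3 * (A * v) ^ 2 * X)| + |(Q - 3 * A ^ 2) * X|
        + |12 * A ^ 3 * (v ^ 2 - 1 / 4)| := by gcongr; exact abs_sub _ _
    _ ≤ 4 * (2 * (A * v) ^ 3) + |Q - 3 * A ^ 2| * (2 * (A * v)) + 12 * A ^ 3 * v ^ 2 := by
        gcongr
        rw [abs_mul, abs_of_pos (by norm_num : (0 : ℚ) < 4)]
        gcongr
    _ = R4 A Q v := by unfold R4; ring

/-- `c (n - x)` extended by zero -/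
def ext (c : ℕ → ℤ) (n x : ℕ) : ℤ := if x ≤ n then c (n - x) else 0

theorem oneside (A B C : ℚ) (Q s η D : ℚ) (c : ℕ → ℤ) (hA : 0 < A) (hs : 0 ≤ s)
    (hc : ∀ m : ℕ, |48 * D * (c m : ℚ) - P4 Q (2 * m + s)| ≤ η)
    (a : ℕ → ℕ) (ha : ∀ j : ℕ, (a j : ℚ) = A * (j + 1 / 2) ^ 2 - B * (j + 1 / 2) + C)
    (hmono : Monotone a) (k K n M : ℕ) (hk : k ≤ K + 1) (h1 : a K ≤ n) (h2 : n < a (K + 1))
    (hM : K + 1 ≤ k + M) (hv : A + s ≤ 2 * A * (K + 1 - B / (2 * A))) :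
    |48 * D * ((∑ j ∈ range M, (-1 : ℤ) ^ j * ext c n (a (k + j)) : ℤ) : ℚ)
        - G4 A Q (n + s / 2 - C + B ^ 2 / (4 * A)) (k - B / (2 * A))|
      ≤ R4 A Q (K + 1 - B / (2 * A)) + η * ((K : ℚ) + 1 - k) := by
  obtain ⟨J, hJ⟩ : ∃ J, K + 1 = k + J := ⟨K + 1 - k, by omega⟩
  have hJM : J ≤ M := by omega
  have hsum : ∑ j ∈ range M, (-1 : ℤ) ^ j * ext c n (a (k + j))
      = ∑ j ∈ range J, (-1 : ℤ) ^ j * c (n - a (k + j)) := by
    rw [← sum_subset (range_subset_range.mpr hJM)]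
    · refine sum_congr rfl fun j hj => ?_
      rw [mem_range] at hj
      have : a (k + j) ≤ a K := hmono (by omega)
      rw [ext, if_pos (by omega)]
    · intro j _ hj2
      rw [mem_range, not_lt] at hj2
      have : a (K + 1) ≤ a (k + j) := hmono (by omega)
      rw [ext, if_neg (by omega), mul_zero]
  set N := (n : ℚ) + s / 2 - C + B ^ 2 / (4 * A) with hN
  set v := (k : ℚ) - B / (2 * A) with hvdef
  have hA' : A ≠ 0 := hA.ne'
  have harg : ∀ j : ℕ, 2 * (N - A * (v + j + 1 / 2) ^ 2)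
      = 2 * (n - (a (k + j) : ℚ)) + s := by
    intro j
    rw [ha (k + j), hN, hvdef]
    push_cast
    field_simp
    ring
  have hG := G4_sum A Q N v J
  have hdiff : |48 * D * ((∑ j ∈ range J, (-1 : ℤ) ^ j * c (n - a (k + j)) : ℤ) : ℚ)
      - ∑ j ∈ range J, (-1 : ℚ) ^ j * P4 Q (2 * (N - A * (v + j + 1 / 2) ^ 2))| ≤ η * J := by
    push_cast
    rw [mul_sum, ← sum_sub_distrib]
    refine (abs_sum_le_sum_abs _ _).trans ?_
    calc ∑ j ∈ range J, |48 * D * ((-1 : ℚ) ^ j * (c (n - a (k + j)) : ℚ))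
          - (-1 : ℚ) ^ j * P4 Q (2 * (N - A * (v + j + 1 / 2) ^ 2))|
        ≤ ∑ j ∈ range J, η := by
          refine sum_le_sum fun j hj => ?_
          rw [mem_range] at hj
          have hle : a (k + j) ≤ n := le_trans (hmono (by omega)) h1
          rw [harg j]
          have hcast : (n : ℚ) - (a (k + j) : ℚ) = ((n - a (k + j) : ℕ) : ℚ) := by
            rw [Nat.cast_sub hle]
          rw [hcast]
          have := hc (n - a (k + j))
          have e : 48 * D * ((-1 : ℚ) ^ j * (c (n - a (k + j)) : ℚ))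
              - (-1 : ℚ) ^ j * P4 Q (2 * ((n - a (k + j) : ℕ) : ℚ) + s)
              = (-1 : ℚ) ^ j * (48 * D * (c (n - a (k + j)) : ℚ)
                - P4 Q (2 * ((n - a (k + j) : ℕ) : ℚ) + s)) := by ring
          rw [e, abs_mul, abs_pow, abs_neg, abs_one, one_pow, one_mul]
          exact this
      _ = η * J := by rw [sum_const, card_range, nsmul_eq_mul]; ring
  have hJQ : (K : ℚ) + 1 = k + J := by exact_mod_cast hJ
  have hvJ : v + J = K + 1 - B / (2 * A) := by rw [hvdef, hJQ]; ring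
  have hB := G4_bound A Q N (v + J) s hA hs (by rw [hvJ]; exact hv)
    (by
      have e : A * (v + J - 1 / 2) ^ 2 = (a K : ℚ) - C + B ^ 2 / (4 * A) := by
        rw [ha K, hvJ]; field_simp; ring
      rw [e, hN]
      have : (a K : ℚ) ≤ n := by exact_mod_cast h1
      linarith)
    (by
      have e : A * (v + J + 1 / 2) ^ 2 = (a (K + 1) : ℚ) - C + B ^ 2 / (4 * A) := by
        rw [ha (K + 1), hvJ]; push_cast; field_simp; ring
      rw [e, hN]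
      have : (n : ℚ) ≤ a (K + 1) := by exact_mod_cast h2.le
      linarith)
  rw [hsum]
  rw [hG] at hdiff
  rw [← hvJ]
  have hJ2 : (K : ℚ) + 1 - k = J := by rw [hJQ]; ring
  rw [hJ2]
  have hsg : |(-1 : ℚ) ^ J * G4 A Q N (v + J)| = |G4 A Q N (v + J)| := by
    rw [abs_mul, abs_pow, abs_neg, abs_one, one_pow, one_mul]
  calc _ = |(48 * D * ((∑ j ∈ range J, (-1 : ℤ) ^ j * c (n - a (k + j)) : ℤ) : ℚ)
      - (G4 A Q N v - (-1) ^ J * G4 A Q N (v + J))) - (-1) ^ J * G4 A Q N (v + J)| := by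
        congr 1; ring
    _ ≤ _ := (abs_sub _ _).trans (by rw [hsg]; linarith)

theorem G4_diff (A B Q N k : ℚ) (hA : A ≠ 0) :
    G4 A Q (N + B ^ 2 / (4 * A)) (k - B / (2 * A)) - G4 A Q (N + B ^ 2 / (4 * A)) (k + B / (2 * A))
      = 24 * B * k * ((N - A * (k ^ 2 - 3 / 4)) ^ 2 - (A ^ 2 - B ^ 2 / 3) * k ^ 2
          + (A ^ 2 - B ^ 2 / 4 - Q / 12)) := by
  unfold G4
  field_simp
  ring

/-- the two-sided lower bound -/
theorem lower (A B C : ℚ) (Q s η D : ℚ) (c : ℕ → ℤ) (hA : 0 < A) (hs : 0 ≤ s)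
    (hc : ∀ m : ℕ, |48 * D * (c m : ℚ) - P4 Q (2 * m + s)| ≤ η)
    (a b : ℕ → ℕ) (ha : ∀ j : ℕ, (a j : ℚ) = A * (j + 1 / 2) ^ 2 - B * (j + 1 / 2) + C)
    (hb : ∀ j : ℕ, (b j : ℚ) = A * (j + 1 / 2) ^ 2 + B * (j + 1 / 2) + C)
    (ham : Monotone a) (hbm : Monotone b) (k Ka Kb n M : ℕ)
    (hka : k ≤ Ka + 1) (h1 : a Ka ≤ n) (h2 : n < a (Ka + 1))
    (hkb : k ≤ Kb + 1) (h3 : b Kb ≤ n) (h4 : n < b (Kb + 1))
    (hMa : Ka + 1 ≤ k + M) (hMb : Kb + 1 ≤ k + M)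
    (hva : A + s ≤ 2 * A * (Ka + 1 - B / (2 * A)))
    (hvb : A + s ≤ 2 * A * (Kb + 1 + B / (2 * A))) :
    24 * B * k * (((n : ℚ) + s / 2 - C - A * (k ^ 2 - 3 / 4)) ^ 2 - (A ^ 2 - B ^ 2 / 3) * k ^ 2
          + (A ^ 2 - B ^ 2 / 4 - Q / 12))
        - (R4 A Q (Ka + 1 - B / (2 * A)) + η * ((Ka : ℚ) + 1 - k))
        - (R4 A Q (Kb + 1 + B / (2 * A)) + η * ((Kb : ℚ) + 1 - k))
      ≤ 48 * D * ((∑ j ∈ range M, (-1 : ℤ) ^ j * (ext c n (a (k + j)) - ext c n (b (k + j))) : ℤ) : ℚ)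
       := by
  have H1 := oneside A B C Q s η D c hA hs hc a ha ham k Ka n M hka h1 h2 hMa hva
  have H2 := oneside A (-B) C Q s η D c hA hs hc b (fun j => by rw [hb j]; ring) hbm k Kb n M hkb
    h3 h4 hMb (by rw [neg_div, sub_neg_eq_add]; exact hvb)
  have hd := G4_diff A B Q ((n : ℚ) + s / 2 - C) k hA.ne'
  rw [neg_div, sub_neg_eq_add, sub_neg_eq_add, neg_sq] at H2
  have hsplit : ((∑ j ∈ range M, (-1 : ℤ) ^ j * (ext c n (a (k + j)) - ext c n (b (k + j))) : ℤ) : ℚ)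
      = ((∑ j ∈ range M, (-1 : ℤ) ^ j * ext c n (a (k + j)) : ℤ) : ℚ)
        - ((∑ j ∈ range M, (-1 : ℤ) ^ j * ext c n (b (k + j)) : ℤ) : ℚ) := by
    rw [← Int.cast_sub, ← sum_sub_distrib]
    congr 1
    refine sum_congr rfl fun j _ => ?_
    ring
  rw [hsplit, mul_sub]
  rw [abs_le] at H1 H2
  linarith [H1.1, H2.2]

end Pool.Agent.X13.TT
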