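import Pool.Agent.X13.TT.Series

/-!
# Infinite products of the form `∏_{i ∈ S} (1 - q^i)` and `∏ (1 + q^i)`
-/

namespace Pool.Agent.X13.TT

open Finset PowerSeries

/-- equality of the coefficients up to `M` -/
def agree (M : ℕ) (φ ψ : ℤ⟦X⟧) : Prop := ∀ i, i ≤ M → coeff i φ = coeff i ψ

theorem agree.rfl' (M : ℕ) (φ : ℤ⟦X⟧) : agree M φ φ := fun _ _ => rfl

theorem agree.symm {M : ℕ} {φ ψ : ℤ⟦X⟧} (h : agree M φ ψ) : agree M ψ φ :=
  fun i hi => (h i hi).symm

theorem agree.trans {M : ℕ} {φ ψ χ : ℤ⟦X⟧} (h : agree M φ ψ) (h' : agree M ψ χ) : agree M φ χ :=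
  fun i hi => (h i hi).trans (h' i hi)

theorem agree.mul {M : ℕ} {φ ψ φ' ψ' : ℤ⟦X⟧} (h : agree M φ φ') (h' : agree M ψ ψ') :
    agree M (φ * ψ) (φ' * ψ') := by
  intro i hi
  rw [coeff_mul, coeff_mul]
  refine sum_congr rfl fun p hp => ?_
  have hp2 : p.1 + p.2 = i := Finset.HasAntidiagonal.mem_antidiagonal.mp hp
  rw [h p.1 (by omega), h' p.2 (by omega)]

theorem agree.prod {ι : Type*} {M : ℕ} (s : Finset ι) (f g : ι → ℤ⟦X⟧)
    (h : ∀ i ∈ s, agree M (f i) (g i)) : agree M (∏ i ∈ s, f i) (∏ i ∈ s, g i) := by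
  classical
  induction s using Finset.induction_on with
  | empty => simpa using agree.rfl' M 1
  | insert i s hi ih =>
    rw [prod_insert hi, prod_insert hi]
    exact (h i (mem_insert_self _ _)).mul (ih fun j hj => h j (mem_insert_of_mem hj))

theorem agree_one_sub {M j : ℕ} (h : M < j) : agree M (1 - (X : ℤ⟦X⟧) ^ j) 1 := by
  intro i hi
  rw [map_sub, coeff_X_pow, if_neg (by omega), sub_zero]

theorem agree_one_add {M j : ℕ} (h : M < j) : agree M (1 + (X : ℤ⟦X⟧) ^ j) 1 := by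
  intro i hi
  rw [map_add, coeff_X_pow, if_neg (by omega), add_zero]

theorem agree.mono {M M' : ℕ} (h : M' ≤ M) {φ ψ : ℤ⟦X⟧} (h' : agree M φ ψ) : agree M' φ ψ :=
  fun i hi => h' i (hi.trans h)

/-- `∏_{i ≥ 1, S i} (1 - q^i)` -/
noncomputable def poch (S : ℕ → Prop) [DecidablePred S] : ℤ⟦X⟧ :=
  PowerSeries.mk fun n => coeff n (∏ i ∈ (Icc 1 n).filter S, (1 - (X : ℤ⟦X⟧) ^ i))

/-- `∏_{i ≥ 1} (1 + q^i)` -/
noncomputable def dist : ℤ⟦X⟧ :=
  PowerSeries.mk fun n => coeff n (∏ i ∈ Icc 1 n, (1 + (X : ℤ⟦X⟧) ^ i))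

theorem agree_poch (S : ℕ → Prop) [DecidablePred S] (M : ℕ) :
    agree M (poch S) (∏ i ∈ (Icc 1 M).filter S, (1 - (X : ℤ⟦X⟧) ^ i)) := by
  intro n hn
  rw [poch, coeff_mk]
  have hsub : (Icc 1 n).filter S ⊆ (Icc 1 M).filter S :=
    filter_subset_filter _ (Icc_subset_Icc_right hn)
  rw [← prod_sdiff hsub]
  have h1 : agree n (∏ i ∈ (Icc 1 M).filter S \ (Icc 1 n).filter S, (1 - (X : ℤ⟦X⟧) ^ i)) 1 := by
    have := agree.prod (M := n) ((Icc 1 M).filter S \ (Icc 1 n).filter S)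
      (fun i => 1 - (X : ℤ⟦X⟧) ^ i) (fun _ => 1) (by
        intro i hi
        apply agree_one_sub
        rw [mem_sdiff, mem_filter, mem_filter, mem_Icc, mem_Icc] at hi
        by_contra hcon
        exact hi.2 ⟨⟨hi.1.1.1, by omega⟩, hi.1.2⟩)
    simpa using this
  have := h1.mul (agree.rfl' n (∏ i ∈ (Icc 1 n).filter S, (1 - (X : ℤ⟦X⟧) ^ i))) n le_rfl
  rw [one_mul] at this
  exact this.symm

theorem agree_dist (M : ℕ) : agree M dist (∏ i ∈ Icc 1 M, (1 + (X : ℤ⟦X⟧) ^ i)) := by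
  intro n hn
  rw [dist, coeff_mk]
  have hsub : Icc 1 n ⊆ Icc 1 M := Icc_subset_Icc_right hn
  rw [← prod_sdiff hsub]
  have h1 : agree n (∏ i ∈ Icc 1 M \ Icc 1 n, (1 + (X : ℤ⟦X⟧) ^ i)) 1 := by
    have := agree.prod (M := n) (Icc 1 M \ Icc 1 n)
      (fun i => 1 + (X : ℤ⟦X⟧) ^ i) (fun _ => 1) (by
        intro i hi
        apply agree_one_add
        rw [mem_sdiff, mem_Icc, mem_Icc] at hi
        by_contra hcon
        exact hi.2 ⟨hi.1.1, by omega⟩)
    simpa using this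
  have := h1.mul (agree.rfl' n (∏ i ∈ Icc 1 n, (1 + (X : ℤ⟦X⟧) ^ i))) n le_rfl
  rw [one_mul] at this
  exact this.symm

theorem prod_one_sub_mul_geo (s : Finset ℕ) (h : ∀ i ∈ s, 0 < i) :
    (∏ i ∈ s, (1 - (X : ℤ⟦X⟧) ^ i)) * ∏ i ∈ s, geo i = 1 := by
  rw [← prod_mul_distrib]
  exact prod_eq_one fun i hi => one_sub_mul_geo (h i hi)

/-- the inverse of an infinite product -/
theorem agree_inv (S : ℕ → Prop) [DecidablePred S] (M : ℕ) :
    agree M (invOfUnit (poch S) 1) (∏ i ∈ (Icc 1 M).filter S, geo i) := by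
  have h0 : constantCoeff (poch S) = ((1 : ℤˣ) : ℤ) := by
    rw [← coeff_zero_eq_constantCoeff_apply, poch, coeff_mk]
    simp
  have h1 : poch S * invOfUnit (poch S) 1 = 1 := mul_invOfUnit _ _ h0
  have h2 := (agree_poch S M).mul (agree.rfl' M (invOfUnit (poch S) 1 *
    ∏ i ∈ (Icc 1 M).filter S, geo i))
  have e1 : poch S * (invOfUnit (poch S) 1 * ∏ i ∈ (Icc 1 M).filter S, geo i)
      = ∏ i ∈ (Icc 1 M).filter S, geo i := by rw [← mul_assoc, h1, one_mul]
  have e2 : (∏ i ∈ (Icc 1 M).filter S, (1 - (X : ℤ⟦X⟧) ^ i)) * (invOfUnit (poch S) 1 *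
      ∏ i ∈ (Icc 1 M).filter S, geo i) = invOfUnit (poch S) 1 := by
    have := prod_one_sub_mul_geo ((Icc 1 M).filter S) (by
      intro i hi; rw [mem_filter, mem_Icc] at hi; omega)
    linear_combination (invOfUnit (poch S) 1) * this
  rw [e1, e2] at h2
  exact h2.symm

/-- Euler: distinct parts and odd parts -/
theorem agree_euler (M : ℕ) :
    agree M dist (∏ i ∈ (Icc 1 M).filter (fun i => i % 2 = 1), geo i) := by
  refine (agree_dist M).trans ?_
  set A := ∏ i ∈ Icc 1 M, (1 + (X : ℤ⟦X⟧) ^ i) with hA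
  set Pm := ∏ i ∈ Icc 1 M, (1 - (X : ℤ⟦X⟧) ^ i) with hPm
  set Ev := ∏ i ∈ (Icc 1 M).filter (fun i => ¬ i % 2 = 1), (1 - (X : ℤ⟦X⟧) ^ i) with hEv
  set Od := ∏ i ∈ (Icc 1 M).filter (fun i => i % 2 = 1), (1 - (X : ℤ⟦X⟧) ^ i) with hOd
  set gE := ∏ i ∈ (Icc 1 M).filter (fun i => ¬ i % 2 = 1), geo i with hgE
  set gO := ∏ i ∈ (Icc 1 M).filter (fun i => i % 2 = 1), geo i with hgO
  have hsplit : Od * Ev = Pm := by
    rw [hOd, hEv, hPm]; exact prod_filter_mul_prod_filter_not _ _ _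
  have hE : Ev * gE = 1 := prod_one_sub_mul_geo _ (by
      intro i hi; rw [mem_filter, mem_Icc] at hi; omega)
  have hO : Od * gO = 1 := prod_one_sub_mul_geo _ (by
      intro i hi; rw [mem_filter, mem_Icc] at hi; omega)
  have hAP : A * Pm = ∏ i ∈ Icc 1 M, (1 - (X : ℤ⟦X⟧) ^ (2 * i)) := by
    rw [hA, hPm, ← prod_mul_distrib]
    refine prod_congr rfl fun i _ => ?_
    rw [two_mul, pow_add]; ring
  have himg : ∏ i ∈ Icc 1 M, (1 - (X : ℤ⟦X⟧) ^ (2 * i))
      = ∏ j ∈ (Icc 1 (2 * M)).filter (fun i => ¬ i % 2 = 1), (1 - (X : ℤ⟦X⟧) ^ j) := by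
    refine prod_bij (fun i _ => 2 * i) ?_ ?_ ?_ ?_
    · intro i hi
      rw [mem_Icc] at hi
      rw [mem_filter, mem_Icc]; omega
    · intro i _ j _ h
      have : 2 * i = 2 * j := h
      omega
    · intro j hj
      rw [mem_filter, mem_Icc] at hj
      exact ⟨j / 2, by rw [mem_Icc]; omega, by show 2 * (j / 2) = j; omega⟩
    · intro i _; rfl
  have hbig : agree M (∏ i ∈ Icc 1 M, (1 - (X : ℤ⟦X⟧) ^ (2 * i))) Ev := by
    rw [himg]
    have hsub : (Icc 1 M).filter (fun i => ¬ i % 2 = 1)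
        ⊆ (Icc 1 (2 * M)).filter (fun i => ¬ i % 2 = 1) :=
      filter_subset_filter _ (Icc_subset_Icc_right (by omega))
    rw [← prod_sdiff hsub]
    have h1 : agree M (∏ i ∈ (Icc 1 (2 * M)).filter (fun i => ¬ i % 2 = 1)
        \ (Icc 1 M).filter (fun i => ¬ i % 2 = 1), (1 - (X : ℤ⟦X⟧) ^ i)) 1 := by
      have := agree.prod (M := M) ((Icc 1 (2 * M)).filter (fun i => ¬ i % 2 = 1)
        \ (Icc 1 M).filter (fun i => ¬ i % 2 = 1))
        (fun i => 1 - (X : ℤ⟦X⟧) ^ i) (fun _ => 1) (by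
          intro i hi
          apply agree_one_sub
          rw [mem_sdiff, mem_filter, mem_filter, mem_Icc, mem_Icc] at hi
          by_contra hcon
          exact hi.2 ⟨⟨hi.1.1.1, by omega⟩, hi.1.2⟩)
      simpa using this
    have := h1.mul (agree.rfl' M Ev)
    rwa [one_mul] at this
  have h3 : agree M (A * Pm * (gE * gO)) (Ev * (gE * gO)) := by
    rw [hAP]
    exact hbig.mul (agree.rfl' M _)
  have e1 : A * Pm * (gE * gO) = A := by
    rw [← hsplit]; linear_combination A * (Ev * gE) * hO + A * hE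
  have e2 : Ev * (gE * gO) = gO := by linear_combination gO * hE
  rw [e1, e2] at h3
  exact h3

theorem geoL_eq_prod (ds : List ℕ) (h : ds.Nodup) : geoL ds = ∏ d ∈ ds.toFinset, geo d := by
  induction ds with
  | nil => simp [geoL]
  | cons d ds ih =>
    rw [List.nodup_cons] at h
    rw [geoL, List.toFinset_cons, prod_insert (by simpa using h.1), ih h.2]

/-- transfer of nonnegativity from a finite product to the infinite one -/
theorem nonneg_of_agree (S : ℕ → Prop) [DecidablePred S] (φ Φ : ℤ⟦X⟧)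
    (hΦ : ∀ M, agree M Φ (∏ i ∈ (Icc 1 M).filter S, geo i)) (ds : List ℕ) (hnd : ds.Nodup)
    (hds : ∀ d ∈ ds, 0 < d ∧ S d) (h : NN (φ * geoL ds)) : NN (φ * Φ) := by
  intro n
  set M := max n (ds.foldr max 0) with hM
  have hdM : ∀ d ∈ ds, d ≤ M := by
    have key : ∀ (l : List ℕ) (d : ℕ), d ∈ l → d ≤ l.foldr max 0 := by
      intro l
      induction l with
      | nil => intro d hd; simp at hd
      | cons e l ih =>
        intro d hd
        rw [List.foldr_cons]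
        rcases List.mem_cons.mp hd with rfl | hd
        · exact le_max_left _ _
        · exact (ih d hd).trans (le_max_right _ _)
    intro d hd
    exact (key ds d hd).trans (le_max_right _ _)
  have hsub : ds.toFinset ⊆ (Icc 1 M).filter S := by
    intro d hd
    rw [List.mem_toFinset] at hd
    rw [mem_filter, mem_Icc]
    exact ⟨⟨(hds d hd).1, hdM d hd⟩, (hds d hd).2⟩
  have h1 := ((agree.rfl' M φ).mul (hΦ M)) n (le_max_left _ _)
  rw [h1, ← prod_sdiff hsub, ← geoL_eq_prod ds hnd]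
  have e : φ * ((∏ i ∈ (Icc 1 M).filter S \ ds.toFinset, geo i) * geoL ds)
      = φ * geoL ds * ∏ i ∈ (Icc 1 M).filter S \ ds.toFinset, geo i := by ring
  rw [e]
  exact h.mul (NN.prod _ _ fun i _ => NN.geo i) n

end Pool.Agent.X13.TT
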