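import Pool.Agent.X13.TT.Theta
import Pool.Agent.X13.TT.Prod

/-!
# The pentagonal progression with the parts 1, 3, 5, 7
-/

namespace Pool.Agent.X13.TT

open Finset PowerSeries

/-- `j(3j+1)/2` -/
def pa (j : ℕ) : ℕ := j * (3 * j + 1) / 2
/-- `(j+1)(3j+2)/2 = j(3j+1)/2 + 2j+1` -/
def pb (j : ℕ) : ℕ := (j + 1) * (3 * j + 2) / 2

theorem pa_two (j : ℕ) : 2 * pa j = j * (3 * j + 1) := by
  have : 2 ∣ j * (3 * j + 1) := by
    rcases Nat.even_or_odd' j with ⟨t, rfl | rfl⟩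
    · exact ⟨t * (3 * (2 * t) + 1), by ring⟩
    · exact ⟨(2 * t + 1) * (3 * t + 2), by ring⟩
  exact Nat.mul_div_cancel' this

theorem pb_two (j : ℕ) : 2 * pb j = (j + 1) * (3 * j + 2) := by
  have : 2 ∣ (j + 1) * (3 * j + 2) := by
    rcases Nat.even_or_odd' j with ⟨t, rfl | rfl⟩
    · exact ⟨(2 * t + 1) * (3 * t + 1), by ring⟩
    · exact ⟨(t + 1) * (3 * (2 * t + 1) + 2), by ring⟩
  exact Nat.mul_div_cancel' this

theorem pa_cast (j : ℕ) : (pa j : ℚ) = 3 / 2 * ((j : ℚ) + 1 / 2) ^ 2 - 1 * ((j : ℚ) + 1 / 2) + 1 / 8 := by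
  have h : ((2 * pa j : ℕ) : ℚ) = ((j * (3 * j + 1) : ℕ) : ℚ) := by rw [pa_two]
  push_cast at h
  linarith

theorem pb_cast (j : ℕ) : (pb j : ℚ) = 3 / 2 * ((j : ℚ) + 1 / 2) ^ 2 + 1 * ((j : ℚ) + 1 / 2) + 1 / 8 := by
  have h : ((2 * pb j : ℕ) : ℚ) = (((j + 1) * (3 * j + 2) : ℕ) : ℚ) := by rw [pb_two]
  push_cast at h
  linarith

theorem pa_mono : Monotone pa := fun i j h => by
  have h1 := pa_two i
  have h2 := pa_two j
  have : i * (3 * i + 1) ≤ j * (3 * j + 1) := by gcongr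
  omega

theorem pb_mono : Monotone pb := fun i j h => by
  have h1 := pb_two i
  have h2 := pb_two j
  have : (i + 1) * (3 * i + 2) ≤ (j + 1) * (3 * j + 2) := by gcongr
  omega

theorem pa_ge (j : ℕ) : j ≤ pa j := by
  have := pa_two j
  nlinarith

theorem pa_lt_pb (j : ℕ) : pb j = pa j + (2 * j + 1) := by
  have h1 := pa_two j
  have h2 := pb_two j
  have : (j + 1) * (3 * j + 2) = j * (3 * j + 1) + 2 * (2 * j + 1) := by ring
  omega

theorem pb_ge (j : ℕ) : j ≤ pb j := by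
  have := pa_lt_pb j
  omega

theorem pa_succ (j : ℕ) : pa (j + 1) = pb j + (j + 1) := by
  have h1 := pa_two (j + 1)
  have h2 := pb_two j
  have : (j + 1) * (3 * (j + 1) + 1) = (j + 1) * (3 * j + 2) + 2 * (j + 1) := by ring
  omega

theorem pb_le (j : ℕ) : pb j ≤ pa (j + 2) := by
  have h1 := pa_succ j
  have h2 := pa_mono (show j + 1 ≤ j + 2 by omega)
  omega

theorem noise_1357 (m : ℕ) : |nz 1 3 5 7 m| ≤ 2288 := by
  have := noise 1 3 5 7 2288 (by norm_num) (by norm_num) (by norm_num) (by norm_num)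
    (by decide +kernel) m
  exact_mod_cast this

theorem noise_to_rat (d1 d2 d3 d4 η : ℕ) (h : ∀ m, |nz d1 d2 d3 d4 m| ≤ η) (m : ℕ) :
    |48 * ((d1 * d2 * d3 * d4 : ℕ) : ℚ) * ((cc d1 d2 d3 d4 m : ℤ) : ℚ)
      - P4 ((d1 ^ 2 + d2 ^ 2 + d3 ^ 2 + d4 ^ 2 : ℕ) : ℚ) (2 * m + ((d1 + d2 + d3 + d4 : ℕ) : ℚ))|
      ≤ (η : ℚ) := by
  have h1 := h m
  have h2 : ((|nz d1 d2 d3 d4 m| : ℤ) : ℚ) ≤ ((η : ℤ) : ℚ) := by exact_mod_cast h1
  rw [Int.cast_abs] at h2
  unfold nz at h2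
  unfold P4
  push_cast at h2 ⊢
  exact h2

theorem cc_mono_of_mem (φ : ℤ⟦X⟧) (hφ : NN φ) (d : ℕ) (hd : 0 < d) (m : ℕ) :
    coeff m (φ * geo d) ≤ coeff (m + d) (φ * geo d) := by
  have := coeff_step hd φ m
  have := hφ (m + d)
  linarith

theorem mono_one {φ : ℤ⟦X⟧} (hφ : NN φ) : Monotone (fun m => coeff m (φ * geo 1)) :=
  monotone_nat_of_le_succ fun m => cc_mono_of_mem φ hφ 1 one_pos m

theorem ext_sub_nonneg (c : ℕ → ℤ) (hc : Monotone c) (hc0 : 0 ≤ c 0) (n x y : ℕ) (h : x ≤ y) :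
    0 ≤ ext c n x - ext c n y := by
  unfold ext
  by_cases h1 : y ≤ n
  · rw [if_pos (h.trans h1), if_pos h1]
    have := hc (show n - y ≤ n - x by omega)
    linarith
  · rw [if_neg h1]
    split_ifs
    · have := hc (Nat.zero_le (n - x))
      linarith
    · simp

theorem fin_pent (k K : ℕ) (hk : 1 ≤ k) (hkK : k < K) (hK : 7 ≤ K) :
    2 * (R4 (3 / 2) 84 (K + 1 + 1 / (2 * (3 / 2))) + 2288 * ((K : ℚ) + 1 - k)) <
      24 * 1 * k * ((3 / 2 * ((K : ℚ) + 1 / 2) ^ 2 - 1 * ((K : ℚ) + 1 / 2) + 16 / 2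
          - 3 / 2 * ((k : ℚ) ^ 2 - 3 / 4)) ^ 2 - ((3 / 2) ^ 2 - 1 ^ 2 / 3) * (k : ℚ) ^ 2
          + ((3 / 2) ^ 2 - 1 ^ 2 / 4 - 84 / 12)) := by
  have habs : |(84 : ℚ) - 3 * (3 / 2) ^ 2| = 309 / 4 := by
    rw [abs_of_pos (by norm_num)]; norm_num
  unfold R4
  rw [habs]
  rcases Nat.lt_or_ge k 3 with h | h
  · obtain ⟨y, rfl⟩ := Nat.exists_eq_add_of_le hK
    interval_cases k <;>
    · push_cast
      rw [← sub_pos]
      ring_nf
      positivity
  · obtain ⟨x, rfl⟩ := Nat.exists_eq_add_of_le h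
    obtain ⟨y, rfl⟩ := Nat.exists_eq_add_of_le (show 3 + x + 1 ≤ K by omega)
    push_cast
    rw [← sub_pos]
    ring_nf
    positivity

theorem check_pent : ∀ k ∈ List.range 7, 1 ≤ k →
    ((dps [1, 3, 5, 7] (thL pa pb k 77)).all fun x => decide (0 ≤ x)) = true := by
  decide +kernel

theorem pent_nonneg (k : ℕ) (hk : 1 ≤ k) : NN (th pa pb k * geoL [1, 3, 5, 7]) := by
  intro n
  set c : ℕ → ℤ := fun m => coeff m (geoL [1, 3, 5, 7]) with hc
  have hab' : ∀ j, pa j ≤ pb j := fun j => by have := pa_lt_pb j; omega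
  rcases Nat.lt_or_ge n (pa (k + 1)) with h1 | h1
  · rw [coeff_th_mul pa pb pa_ge pb_ge k n (n + 1) le_rfl,
      sum_small _ pa pb pa_mono hab' k n (n + 1) (by omega) h1]
    have hg : geoL [1, 3, 5, 7] = geo 3 * geo 5 * geo 7 * geo 1 := by
      simp only [geoL, mul_one]; ring
    rw [hg]
    have hNN : NN (geo 3 * geo 5 * geo 7) := ((NN.geo 3).mul (NN.geo 5)).mul (NN.geo 7)
    exact ext_sub_nonneg _ (mono_one hNN) ((hNN.mul (NN.geo 1)) 0) n _ _ (hab' k)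
  · rcases Nat.lt_or_ge n 77 with h2 | h2
    · have hk7 : k < 7 := by
        by_contra hcon
        have : pa 7 ≤ pa (k + 1) := pa_mono (by omega)
        have h77 : pa 7 = 77 := by decide
        omega
      exact coeff_of_check pa pb _ (by simp) k 77 (check_pent k (List.mem_range.mpr hk7) hk) n h2
    · rw [coeff_th_mul pa pb pa_ge pb_ge k n (n + 1) le_rfl]
      refine (pos_main (3 / 2) 1 (1 / 8) 84 16 2288 105 _ (by norm_num) (by norm_num)
        (by norm_num) (by norm_num) (by norm_num) (by norm_num) ?_ pa pb pa_cast pb_cast pa_ge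
        pb_ge pa_mono pb_mono pb_le 7 (by norm_num) (by norm_num) (by norm_num)
        (fun k K a b c => fin_pent k K a b c) k n (n + 1) hk (by
          have h77 : pa 7 = 77 := by decide
          omega) h1 le_rfl).le
      intro m
      have := noise_to_rat 1 3 5 7 2288 (fun m => by exact_mod_cast noise_1357 m) m
      norm_num at this
      rw [show (48 : ℚ) * 105 = 5040 by norm_num]
      exact this

end Pool.Agent.X13.TT
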