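import Pool.Agent.X13.TT.RR

/-!
# The pentagonal progression with the parts 2, 3, 5, 11: strict positivity
-/

namespace Pool.Agent.X13.TT

open Finset PowerSeries

theorem noise_23511 (m : ℕ) : |nz 2 3 5 11 m| ≤ 11678 := by
  have := noise 2 3 5 11 11678 (by norm_num) (by norm_num) (by norm_num) (by norm_num)
    (by decide +kernel) m
  exact_mod_cast this

theorem fin_pent2 (k K : ℕ) (hk : 1 ≤ k) (hkK : k < K) (hK : 9 ≤ K) :
    2 * (R4 (3 / 2) 159 (K + 1 + 1 / (2 * (3 / 2))) + 11678 * ((K : ℚ) + 1 - k)) <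
      24 * 1 * k * ((3 / 2 * ((K : ℚ) + 1 / 2) ^ 2 - 1 * ((K : ℚ) + 1 / 2) + 21 / 2
          - 3 / 2 * ((k : ℚ) ^ 2 - 3 / 4)) ^ 2 - ((3 / 2) ^ 2 - 1 ^ 2 / 3) * (k : ℚ) ^ 2
          + ((3 / 2) ^ 2 - 1 ^ 2 / 4 - 159 / 12)) := by
  have habs : |(159 : ℚ) - 3 * (3 / 2) ^ 2| = 609 / 4 := by
    rw [abs_of_pos (by norm_num)]; norm_num
  unfold R4
  rw [habs]
  rcases Nat.lt_or_ge k 5 with h | h
  · obtain ⟨y, rfl⟩ := Nat.exists_eq_add_of_le hK
    interval_cases k <;>
    · push_cast
      rw [← sub_pos]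
      ring_nf
      positivity
  · obtain ⟨x, rfl⟩ := Nat.exists_eq_add_of_le h
    obtain ⟨y, rfl⟩ := Nat.exists_eq_add_of_le (show 5 + x + 1 ≤ K by omega)
    push_cast
    rw [← sub_pos]
    ring_nf
    positivity

/-- check of a list: nonnegative entries, positive outside `z` -/
def chkPos (z : List ℕ) (l : List ℤ) : Bool :=
  l.all (fun x => decide (0 ≤ x)) &&
    (List.range l.length).all fun i => z.contains i || decide (0 < l.getD i 0)

theorem chkPos_spec (z : List ℕ) (l : List ℤ) (h : chkPos z l = true) (φ : ℤ⟦X⟧) (hR : Rep l φ)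
    (n : ℕ) (hn : n < l.length) : 0 ≤ coeff n φ ∧ (n ∉ z → 0 < coeff n φ) := by
  rw [chkPos, Bool.and_eq_true, List.all_eq_true, List.all_eq_true] at h
  rw [hR n hn]
  constructor
  · rw [List.getD_eq_getElem _ _ hn]
    exact of_decide_eq_true (h.1 _ (List.getElem_mem hn))
  · intro hz
    have := h.2 n (List.mem_range.mpr hn)
    rw [Bool.or_eq_true] at this
    rcases this with h1 | h1
    · exact absurd (by simpa using h1) hz
    · exact of_decide_eq_true h1

theorem check_pent2 : ∀ k ∈ List.range 9, 2 ≤ k →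
    chkPos (List.range (pa k) ++ [pa k + 1]) (dps [2, 3, 5, 11] (thLJ pa pb k 8 126)) = true := by
  decide +kernel

theorem check_pent2_one :
    chkPos [0, 1, 3, 5, 7, 9, 10, 11, 13, 16] (dps [2, 3, 5, 11] (thLJ pa pb 1 8 126)) = true := by
  decide +kernel

theorem pa_nine : pa 9 = 126 := by decide

theorem pa_big (k : ℕ) (hk : 1 ≤ k) : 126 ≤ pa (k + 8) := by
  have := pa_mono (show 9 ≤ k + 8 by omega)
  rw [pa_nine] at this
  exact this

theorem pa_le_pb (j : ℕ) : pa j ≤ pb j := by have := pa_lt_pb j; omega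

theorem step_two_five {φ : ℤ⟦X⟧} (hφ : NN φ) (l : ℕ) (hl : 4 ≤ l) (m : ℕ) :
    coeff m (φ * geo 2 * geo 5) ≤ coeff (m + l) (φ * geo 2 * geo 5) := by
  have h2 : ∀ m, coeff m (φ * geo 2 * geo 5) ≤ coeff (m + 2) (φ * geo 2 * geo 5) := by
    intro m
    have := cc_mono_of_mem (φ * geo 5) (hφ.mul (NN.geo 5)) 2 (by norm_num) m
    rwa [show φ * geo 5 * geo 2 = φ * geo 2 * geo 5 by ring] at this
  have h5 : ∀ m, coeff m (φ * geo 2 * geo 5) ≤ coeff (m + 5) (φ * geo 2 * geo 5) :=
    cc_mono_of_mem (φ * geo 2) (hφ.mul (NN.geo 2)) 5 (by norm_num)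
  induction l using Nat.strong_induction_on with
  | _ l ih =>
    rcases Nat.lt_or_ge l 6 with h | h
    · interval_cases l
      · exact (h2 m).trans (h2 (m + 2))
      · exact h5 m
    · have := ih (l - 2) (by omega) (by omega)
      have h4 := h2 (m + (l - 2))
      rw [show m + (l - 2) + 2 = m + l by omega] at h4
      exact this.trans h4

theorem geo_zero_coeff {d : ℕ} (_hd : 0 < d) : coeff 0 (geo d) = 1 := by
  rw [geo, coeff_mk, if_pos (dvd_zero _)]

theorem coeff_zero_mul (φ ψ : ℤ⟦X⟧) : coeff 0 (φ * ψ) = coeff 0 φ * coeff 0 ψ := by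
  simp only [coeff_zero_eq_constantCoeff_apply, map_mul]

/-- positivity for `n` below the second block -/
theorem small_pent2 (k n : ℕ) (hk : 2 ≤ k) (h1 : n < pa (k + 1)) (h0 : pa k ≤ n)
    (hn : n ≠ pa k + 1) : 0 < coeff n (th pa pb k * geoL [2, 3, 5, 11]) := by
  rw [coeff_th_mul pa pb pa_ge pb_ge k n (n + 1) le_rfl,
      sum_small _ pa pb pa_mono pa_le_pb k n (n + 1) (by omega) h1]
  have hg : geoL [2, 3, 5, 11] = geo 5 * geo 11 * geo 2 * geo 3 := by
    simp only [geoL, mul_one]; ring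
  rw [hg]
  have hNN : NN (geo 5 * geo 11) := (NN.geo 5).mul (NN.geo 11)
  have hstep := step_two_three hNN
  have hc0 : coeff 0 (geo 5 * geo 11 * geo 2 * geo 3) = 1 := by
    rw [coeff_zero_mul, coeff_zero_mul, coeff_zero_mul, geo_zero_coeff (by norm_num),
      geo_zero_coeff (by norm_num), geo_zero_coeff (by norm_num), geo_zero_coeff (by norm_num)]
    norm_num
  obtain ⟨m, rfl⟩ := Nat.exists_eq_add_of_le h0
  have hpb := pa_lt_pb k
  unfold ext
  rw [if_pos h0, Nat.add_sub_cancel_left]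
  have hpos : 0 < coeff m (geo 5 * geo 11 * geo 2 * geo 3) := by
    rcases Nat.lt_or_ge m 2 with h | h
    · have : m = 0 := by omega
      rw [this, hc0]; norm_num
    · have := hstep m h 0
      rw [zero_add, hc0] at this
      linarith
  by_cases h2 : pb k ≤ pa k + m
  · rw [if_pos h2]
    -- m ≥ 2k+1 ≥ 5
    have hm5 : 5 ≤ m := by omega
    have e1 : coeff m (geo 5 * geo 11 * geo 2 * geo 3) - coeff (m - 3) (geo 5 * geo 11 * geo 2 * geo 3)
        = coeff m (geo 11 * geo 2 * geo 5) := by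
      have := coeff_step (d := 3) (by norm_num) (geo 5 * geo 11 * geo 2) (m - 3)
      rw [Nat.sub_add_cancel (by omega)] at this
      rw [this]
      congr 1; ring
    have e2 : 1 ≤ coeff m (geo 11 * geo 2 * geo 5) := by
      have := step_two_five (NN.geo 11) m (by omega) 0
      rw [zero_add] at this
      have h3 : coeff 0 (geo 11 * geo 2 * geo 5) = 1 := by
        rw [coeff_zero_mul, coeff_zero_mul, geo_zero_coeff (by norm_num),
          geo_zero_coeff (by norm_num), geo_zero_coeff (by norm_num)]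
        norm_num
      rw [h3] at this
      exact this
    have e3 : coeff (pa k + m - pb k) (geo 5 * geo 11 * geo 2 * geo 3)
        ≤ coeff (m - 3) (geo 5 * geo 11 * geo 2 * geo 3) := by
      have := hstep (2 * k + 1 - 3) (by omega) (pa k + m - pb k)
      rwa [show pa k + m - pb k + (2 * k + 1 - 3) = m - 3 by omega] at this
    linarith
  · rw [if_neg h2, sub_zero]
    exact hpos

theorem big_pent2 (k n : ℕ) (hk : 1 ≤ k) (hn : 126 ≤ n) (h1 : pa (k + 1) ≤ n) :
    0 < coeff n (th pa pb k * geoL [2, 3, 5, 11]) := by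
  rw [coeff_th_mul pa pb pa_ge pb_ge k n (n + 1) le_rfl]
  refine pos_main (3 / 2) 1 (1 / 8) 159 21 11678 330 _ (by norm_num) (by norm_num)
        (by norm_num) (by norm_num) (by norm_num) (by norm_num) ?_ pa pb pa_cast pb_cast pa_ge
        pb_ge pa_mono pb_mono pb_le 9 (by norm_num) (by norm_num) (by norm_num)
        (fun k K a b c => fin_pent2 k K a b c) k n (n + 1) hk (by rw [pa_nine]; exact hn) h1 le_rfl
  intro m
  have := noise_to_rat 2 3 5 11 11678 (fun m => by exact_mod_cast noise_23511 m) m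
  norm_num at this
  rw [show (48 : ℚ) * 330 = 15840 by norm_num]
  exact this

theorem coeff_th_below (k n : ℕ) (hn : n < pa k) (φ : ℤ⟦X⟧) : coeff n (th pa pb k * φ) = 0 := by
  rw [coeff_th_mul pa pb pa_ge pb_ge k n (n + 1) le_rfl]
  refine sum_eq_zero fun j _ => ?_
  have h1 : pa k ≤ pa (k + j) := pa_mono (by omega)
  have h2 := pa_le_pb (k + j)
  rw [ext, ext, if_neg (by omega), if_neg (by omega)]; simp

theorem Rep_pent2 (k : ℕ) (hk : 1 ≤ k) (ds : List ℕ) (hds : ∀ d ∈ ds, 0 < d) :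
    Rep (dps ds (thLJ pa pb k 8 126)) (th pa pb k * geoL ds) :=
  Rep.dps ds hds _ _ (Rep_thLJ pa pb pa_mono pa_ge pa_le_pb k 8 126 (pa_big k hk))

theorem len_pent2 (k : ℕ) (ds : List ℕ) : (dps ds (thLJ pa pb k 8 126)).length = 126 := by
  rw [dps_length, thLJ, List.length_map, List.length_range]

/-- strict positivity for `k ≥ 2` -/
theorem pent2_pos (k n : ℕ) (hk : 2 ≤ k) (h0 : pa k ≤ n) (hn : n ≠ pa k + 1) :
    0 < coeff n (th pa pb k * geoL [2, 3, 5, 11]) := by
  rcases Nat.lt_or_ge n (pa (k + 1)) with h1 | h1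
  · exact small_pent2 k n hk h1 h0 hn
  · rcases Nat.lt_or_ge n 126 with h2 | h2
    · have hk9 : k < 9 := by
        by_contra hcon
        have := pa_mono (show 9 ≤ k by omega)
        rw [pa_nine] at this
        omega
      refine (chkPos_spec _ _ (check_pent2 k (List.mem_range.mpr hk9) hk) _
        (Rep_pent2 k (by omega) _ (by simp)) n (by rw [len_pent2]; exact h2)).2 ?_
      simp only [List.mem_append, List.mem_range, List.mem_singleton]
      omega
    · exact big_pent2 k n (by omega) h2 h1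

theorem pent2_at_one (k : ℕ) (hk : 1 ≤ k) (Φ : ℤ⟦X⟧) (h0 : coeff 0 Φ = 1) :
    coeff (pa k) (th pa pb k * Φ) = 1 ∧ coeff (pa k + 1) (th pa pb k * Φ) = coeff 1 Φ := by
  have hs := pa_succ k
  have hp := pa_lt_pb k
  constructor
  · rw [coeff_th_mul pa pb pa_ge pb_ge k _ (pa k + 1) le_rfl,
      sum_small _ pa pb pa_mono pa_le_pb k _ _ (by omega) (by omega)]
    unfold ext
    rw [if_pos le_rfl, if_neg (by omega), Nat.sub_self, sub_zero]
    exact h0
  · rw [coeff_th_mul pa pb pa_ge pb_ge k _ (pa k + 1 + 1) le_rfl,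
      sum_small _ pa pb pa_mono pa_le_pb k _ _ (by omega) (by omega)]
    unfold ext
    rw [if_pos (by omega), if_neg (by omega), Nat.add_sub_cancel_left, sub_zero]

theorem pent2_NN (k : ℕ) (hk : 1 ≤ k) : NN (th pa pb k * geoL [2, 3, 5, 11]) := by
  intro n
  rcases Nat.lt_or_ge n (pa k) with h0 | h0
  · exact (coeff_th_below k n h0 _).ge
  · rcases Nat.lt_or_ge k 2 with hk2 | hk2
    · have hk1 : k = 1 := by omega
      subst hk1
      rcases Nat.lt_or_ge n 126 with h2 | h2
      · exact (chkPos_spec _ _ check_pent2_one _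
          (Rep_pent2 1 le_rfl _ (by simp)) n (by rw [len_pent2]; exact h2)).1
      · exact (big_pent2 1 n le_rfl h2 (by
          have : pa (1 + 1) = 7 := by decide
          omega)).le
    · by_cases hn : n = pa k + 1
      · have := (pent2_at_one k hk (geoL [2, 3, 5, 11]) (by
          simp only [geoL, mul_one]
          rw [coeff_zero_mul, coeff_zero_mul, coeff_zero_mul, geo_zero_coeff (by norm_num),
            geo_zero_coeff (by norm_num), geo_zero_coeff (by norm_num),
            geo_zero_coeff (by norm_num)]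
          norm_num)).2
        rw [hn, this]
        exact NN.geoL _ _
      · exact (pent2_pos k n hk2 h0 hn).le

theorem check_one : chkPos [0, 1, 3, 5, 7, 9]
    (dps [2, 3, 5, 11, 4, 9] (thLJ pa pb 1 8 126)) = true := by
  decide +kernel

/-- `k = 1` with the parts 2, 3, 4, 5, 9, 11 -/
theorem one_pos' (n : ℕ) (hn : n ∉ [0, 1, 3, 5, 7, 9]) :
    0 < coeff n (th pa pb 1 * geoL [2, 3, 5, 11, 4, 9]) := by
  rcases Nat.lt_or_ge n 126 with h2 | h2
  · exact (chkPos_spec _ _ check_one _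
      (Rep_pent2 1 le_rfl _ (by simp)) n (by rw [len_pent2]; exact h2)).2 hn
  · have h1 := big_pent2 1 n le_rfl h2 (by
      have : pa (1 + 1) = 7 := by decide
      omega)
    have e : th pa pb 1 * geoL [2, 3, 5, 11, 4, 9]
        = th pa pb 1 * geoL [2, 3, 5, 11] * (geo 4 * geo 9) := by
      simp only [geoL, mul_one]; ring
    rw [e, coeff_mul]
    have hmem : (n, 0) ∈ antidiagonal n := by simp
    have hNN := pent2_NN 1 le_rfl
    have hNN2 : NN (geo 4 * geo 9) := (NN.geo 4).mul (NN.geo 9)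
    refine sum_pos' (fun p _ => mul_nonneg (hNN _) (hNN2 _)) ⟨(n, 0), hmem, ?_⟩
    simp only
    rw [coeff_zero_mul, geo_zero_coeff (by norm_num), geo_zero_coeff (by norm_num)]
    linarith

theorem list_one : ((dps [2, 3, 4, 5, 9] (thLJ pa pb 1 8 126)).getD 5 0 = 0 ∧
    (dps [2, 3, 4, 5, 9] (thLJ pa pb 1 8 126)).getD 7 0 = 0) ∧
    (dps [2, 3, 4, 5, 9] (thLJ pa pb 1 8 126)).getD 9 0 = 0 := by
  decide +kernel

/-- lower bound of the coefficients of an infinite product by those of a finite one -/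
theorem ge_of_agree (S : ℕ → Prop) [DecidablePred S] (φ Φ : ℤ⟦X⟧)
    (hΦ : ∀ M, agree M Φ (∏ i ∈ (Icc 1 M).filter S, geo i)) (ds : List ℕ) (hnd : ds.Nodup)
    (hds : ∀ d ∈ ds, 0 < d ∧ S d) (h : NN (φ * geoL ds)) (n : ℕ) :
    coeff n (φ * geoL ds) ≤ coeff n (φ * Φ) := by
  set M := max n (ds.foldr max 0) with hM
  have hdM : ∀ d ∈ ds, d ≤ M := by
    have key : ∀ (l : List ℕ) (d : ℕ), d ∈ l → d ≤ l.foldr max 0 := by
      intro l
      induction l with
      | nil => intro d hd; simp at hd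
      | cons e l ih =>
        intro d hd
        rw [List.foldr_cons]
        rcases List.mem_cons.mp hd with rfl | hd
        · exact le_max_left _ _
        · exact (ih d hd).trans (le_max_right _ _)
    intro d hd
    exact (key ds d hd).trans (le_max_right _ _)
  have hsub : ds.toFinset ⊆ (Icc 1 M).filter S := by
    intro d hd
    rw [List.mem_toFinset] at hd
    rw [mem_filter, mem_Icc]
    exact ⟨⟨(hds d hd).1, hdM d hd⟩, (hds d hd).2⟩
  have h1 := ((agree.rfl' M φ).mul (hΦ M)) n (le_max_left _ _)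
  rw [h1, ← prod_sdiff hsub, ← geoL_eq_prod ds hnd]
  have e : φ * ((∏ i ∈ (Icc 1 M).filter S \ ds.toFinset, geo i) * geoL ds)
      = φ * geoL ds * ∏ i ∈ (Icc 1 M).filter S \ ds.toFinset, geo i := by ring
  rw [e, coeff_mul n (φ * geoL ds)]
  have hN2 : NN (∏ i ∈ (Icc 1 M).filter S \ ds.toFinset, geo i) :=
    NN.prod _ _ fun i _ => NN.geo i
  have hc0 : coeff 0 (∏ i ∈ (Icc 1 M).filter S \ ds.toFinset, geo i) = 1 := by
    rw [coeff_zero_eq_constantCoeff_apply, map_prod]
    refine prod_eq_one fun i _ => ?_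
    rw [← coeff_zero_eq_constantCoeff_apply, geo, coeff_mk, if_pos (dvd_zero _)]
  have := single_le_sum (s := antidiagonal n) (f := fun p : ℕ × ℕ => coeff p.1 (φ * geoL ds) *
      coeff p.2 (∏ i ∈ (Icc 1 M).filter S \ ds.toFinset, geo i))
      (fun p _ => mul_nonneg (h _) (hN2 _)) (a := (n, 0)) (by simp)
  simp only at this
  rw [hc0, mul_one] at this
  exact this

end Pool.Agent.X13.TT
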