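import Pool.Agent.X13.TT.Pent

/-!
# The progressions modulo 7 with the parts 1, 4, 9, 11 and 2, 3, 7, 13
-/

namespace Pool.Agent.X13.TT

open Finset PowerSeries

/-- `7j(j+1)/2 - jS` -/
def ra (S j : ℕ) : ℕ := 7 * j * (j + 1) / 2 - j * S
/-- `7j(j+1)/2 - jS + (2j+1)S` -/
def rb (S j : ℕ) : ℕ := 7 * j * (j + 1) / 2 - j * S + (2 * j + 1) * S

theorem ra_two (S j : ℕ) (hS : S ≤ 6) : 2 * ra S j + 2 * (j * S) = 7 * j * (j + 1) := by
  have h1 : 2 ∣ 7 * j * (j + 1) := by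
    rcases Nat.even_or_odd' j with ⟨t, rfl | rfl⟩
    · exact ⟨7 * t * (2 * t + 1), by ring⟩
    · exact ⟨7 * (2 * t + 1) * (t + 1), by ring⟩
  have h2 : 2 * (7 * j * (j + 1) / 2) = 7 * j * (j + 1) := Nat.mul_div_cancel' h1
  have h3 : j * S ≤ 7 * j * (j + 1) / 2 := by
    rw [Nat.le_div_iff_mul_le (by norm_num)]
    rcases Nat.eq_zero_or_pos j with rfl | hj
    · simp
    · calc j * S * 2 = j * (S * 2) := by ring
        _ ≤ j * (7 * (j + 1)) := Nat.mul_le_mul_left _ (by omega)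
        _ = 7 * j * (j + 1) := by ring
  unfold ra
  omega

theorem rb_eq (S j : ℕ) : rb S j = ra S j + (2 * j + 1) * S := rfl

theorem ra_cast (S : ℕ) (hS : S ≤ 6) (j : ℕ) :
    (ra S j : ℚ) = 7 / 2 * ((j : ℚ) + 1 / 2) ^ 2 - S * ((j : ℚ) + 1 / 2) + ((S : ℚ) / 2 - 7 / 8) := by
  have h : ((2 * ra S j + 2 * (j * S) : ℕ) : ℚ) = ((7 * j * (j + 1) : ℕ) : ℚ) := by
    rw [ra_two S j hS]
  push_cast at h
  linarith

theorem rb_cast (S : ℕ) (hS : S ≤ 6) (j : ℕ) :
    (rb S j : ℚ) = 7 / 2 * ((j : ℚ) + 1 / 2) ^ 2 + S * ((j : ℚ) + 1 / 2) + ((S : ℚ) / 2 - 7 / 8) := by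
  rw [rb_eq]
  push_cast
  rw [ra_cast S hS]
  ring

theorem ra_mono (S : ℕ) (hS : S ≤ 6) : Monotone (ra S) :=
  monotone_nat_of_le_succ fun j => by
    have h1 := ra_two S j hS
    have h2 := ra_two S (j + 1) hS
    have : 7 * (j + 1) * (j + 1 + 1) = 7 * j * (j + 1) + 14 * (j + 1) := by ring
    have h3 : (j + 1) * S = j * S + S := by ring
    omega

theorem rb_mono (S : ℕ) (hS : S ≤ 6) : Monotone (rb S) := fun i j h => by
  rw [rb_eq, rb_eq]
  have := ra_mono S hS h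
  have h2 : (2 * i + 1) * S ≤ (2 * j + 1) * S := by gcongr
  omega

theorem ra_ge (S : ℕ) (hS : S ≤ 6) (j : ℕ) : j ≤ ra S j := by
  have h1 := ra_two S j hS
  have h2 : j * S ≤ j * 6 := Nat.mul_le_mul_left _ hS
  rcases Nat.eq_zero_or_pos j with rfl | hj
  · simp
  · have : 14 * j ≤ 7 * j * (j + 1) := by nlinarith
    omega

theorem ra_le_rb (S j : ℕ) : ra S j ≤ rb S j := by rw [rb_eq]; omega

theorem rb_ge (S : ℕ) (hS : S ≤ 6) (j : ℕ) : j ≤ rb S j := (ra_ge S hS j).trans (ra_le_rb S j)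

theorem rb_le (S : ℕ) (hS : S ≤ 6) (j : ℕ) : rb S j ≤ ra S (j + 2) := by
  have h1 := ra_two S j hS
  have h2 := ra_two S (j + 2) hS
  rw [rb_eq]
  have e1 : 7 * (j + 2) * (j + 2 + 1) = 7 * j * (j + 1) + 28 * j + 42 := by ring
  have e2 : (j + 2) * S = j * S + 2 * S := by ring
  have e3 : (2 * j + 1) * S = 2 * (j * S) + S := by ring
  have e4 : j * S ≤ j * 6 := Nat.mul_le_mul_left _ hS
  omega

theorem noise_14911 (m : ℕ) : |nz 1 4 9 11 m| ≤ 14490 := by
  have := noise 1 4 9 11 14490 (by norm_num) (by norm_num) (by norm_num) (by norm_num)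
    (by decide +kernel) m
  exact_mod_cast this

theorem noise_23713 (m : ℕ) : |nz 2 3 7 13 m| ≤ 16358 := by
  have := noise 2 3 7 13 16358 (by norm_num) (by norm_num) (by norm_num) (by norm_num)
    (by decide +kernel) m
  exact_mod_cast this

theorem fin_F (S : ℕ) (hS1 : 1 ≤ S) (hS6 : S ≤ 6) (k K : ℕ) (hk : 1 ≤ k) (hkK : k < K)
    (hK : 6 ≤ K) :
    2 * (R4 (7 / 2) 219 (K + 1 + S / (2 * (7 / 2))) + 14490 * ((K : ℚ) + 1 - k)) <
      24 * S * k * ((7 / 2 * ((K : ℚ) + 1 / 2) ^ 2 - S * ((K : ℚ) + 1 / 2) + 25 / 2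
          - 7 / 2 * ((k : ℚ) ^ 2 - 3 / 4)) ^ 2 - ((7 / 2) ^ 2 - (S : ℚ) ^ 2 / 3) * (k : ℚ) ^ 2
          + ((7 / 2) ^ 2 - (S : ℚ) ^ 2 / 4 - 219 / 12)) := by
  have habs : |(219 : ℚ) - 3 * (7 / 2) ^ 2| = 729 / 4 := by
    rw [abs_of_pos (by norm_num)]; norm_num
  unfold R4
  rw [habs]
  rcases Nat.lt_or_ge k 4 with h | h
  · obtain ⟨y, rfl⟩ := Nat.exists_eq_add_of_le hK
    interval_cases k <;> interval_cases S <;>
    · push_cast
      rw [← sub_pos]
      ring_nf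
      positivity
  · obtain ⟨x, rfl⟩ := Nat.exists_eq_add_of_le h
    obtain ⟨y, rfl⟩ := Nat.exists_eq_add_of_le (show 4 + x + 1 ≤ K by omega)
    interval_cases S <;>
    · push_cast
      rw [← sub_pos]
      ring_nf
      positivity

theorem fin_G (S : ℕ) (hS1 : 1 ≤ S) (hS6 : S ≤ 6) (k K : ℕ) (hk : 1 ≤ k) (hkK : k < K)
    (hK : 6 ≤ K) :
    2 * (R4 (7 / 2) 231 (K + 1 + S / (2 * (7 / 2))) + 16358 * ((K : ℚ) + 1 - k)) <
      24 * S * k * ((7 / 2 * ((K : ℚ) + 1 / 2) ^ 2 - S * ((K : ℚ) + 1 / 2) + 25 / 2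
          - 7 / 2 * ((k : ℚ) ^ 2 - 3 / 4)) ^ 2 - ((7 / 2) ^ 2 - (S : ℚ) ^ 2 / 3) * (k : ℚ) ^ 2
          + ((7 / 2) ^ 2 - (S : ℚ) ^ 2 / 4 - 231 / 12)) := by
  have habs : |(231 : ℚ) - 3 * (7 / 2) ^ 2| = 777 / 4 := by
    rw [abs_of_pos (by norm_num)]; norm_num
  unfold R4
  rw [habs]
  rcases Nat.lt_or_ge k 4 with h | h
  · obtain ⟨y, rfl⟩ := Nat.exists_eq_add_of_le hK
    interval_cases k <;> interval_cases S <;>
    · push_cast
      rw [← sub_pos]
      ring_nf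
      positivity
  · obtain ⟨x, rfl⟩ := Nat.exists_eq_add_of_le h
    obtain ⟨y, rfl⟩ := Nat.exists_eq_add_of_le (show 4 + x + 1 ≤ K by omega)
    interval_cases S <;>
    · push_cast
      rw [← sub_pos]
      ring_nf
      positivity

theorem check_F : ∀ S ∈ List.range 7, ∀ k ∈ List.range 6, 1 ≤ S → 1 ≤ k →
    ((dps [1, 4, 9, 11] (thLJ (ra S) (rb S) k 6 141)).all fun x => decide (0 ≤ x)) = true := by
  decide +kernel

theorem check_G : ∀ S ∈ List.range 7, ∀ k ∈ List.range 6, 1 ≤ S → 1 ≤ k →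
    ((dps [2, 3, 7, 13] (thLJ (ra S) (rb S) k 6 141)).all fun x => decide (0 ≤ x)) = true := by
  decide +kernel

theorem step_two_three {φ : ℤ⟦X⟧} (hφ : NN φ) (l : ℕ) (hl : 2 ≤ l) (m : ℕ) :
    coeff m (φ * geo 2 * geo 3) ≤ coeff (m + l) (φ * geo 2 * geo 3) := by
  have h2 : ∀ m, coeff m (φ * geo 2 * geo 3) ≤ coeff (m + 2) (φ * geo 2 * geo 3) := by
    intro m
    have := cc_mono_of_mem (φ * geo 3) (hφ.mul (NN.geo 3)) 2 (by norm_num) m
    rwa [show φ * geo 3 * geo 2 = φ * geo 2 * geo 3 by ring] at this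
  have h3 : ∀ m, coeff m (φ * geo 2 * geo 3) ≤ coeff (m + 3) (φ * geo 2 * geo 3) :=
    cc_mono_of_mem (φ * geo 2) (hφ.mul (NN.geo 2)) 3 (by norm_num)
  induction l using Nat.strong_induction_on with
  | _ l ih =>
    rcases Nat.lt_or_ge l 4 with h | h
    · interval_cases l
      · exact h2 m
      · exact h3 m
    · have := ih (l - 2) (by omega) (by omega)
      have h4 := h2 (m + (l - 2))
      rw [show m + (l - 2) + 2 = m + l by omega] at h4
      exact this.trans h4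

theorem ext_sub_nonneg2 (c : ℕ → ℤ) (hc : ∀ l, 2 ≤ l → ∀ m, c m ≤ c (m + l)) (hc0 : ∀ m, 0 ≤ c m)
    (n x y : ℕ) (h : x + 2 ≤ y) : 0 ≤ ext c n x - ext c n y := by
  unfold ext
  by_cases h1 : y ≤ n
  · rw [if_pos (by omega), if_pos h1]
    have := hc (y - x) (by omega) (n - y)
    rw [show n - y + (y - x) = n - x by omega] at this
    linarith
  · rw [if_neg h1]
    split_ifs
    · have := hc0 (n - x)
      linarith
    · simp

theorem F_nonneg (S : ℕ) (hS1 : 1 ≤ S) (hS6 : S ≤ 6) (k : ℕ) (hk : 1 ≤ k) :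
    NN (th (ra S) (rb S) k * geoL [1, 4, 9, 11]) := by
  intro n
  rcases Nat.lt_or_ge n (ra S (k + 1)) with h1 | h1
  · rw [coeff_th_mul _ _ (ra_ge S hS6) (rb_ge S hS6) k n (n + 1) le_rfl,
      sum_small _ _ _ (ra_mono S hS6) (ra_le_rb S) k n (n + 1) (by omega) h1]
    have hg : geoL [1, 4, 9, 11] = geo 4 * geo 9 * geo 11 * geo 1 := by
      simp only [geoL, mul_one]; ring
    rw [hg]
    have hNN : NN (geo 4 * geo 9 * geo 11) := ((NN.geo 4).mul (NN.geo 9)).mul (NN.geo 11)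
    exact ext_sub_nonneg _ (mono_one hNN) ((hNN.mul (NN.geo 1)) 0) n _ _ (ra_le_rb S k)
  · rcases Nat.lt_or_ge n (ra S 6) with h2 | h2
    · have hk6 : k < 6 := by
        by_contra hcon
        have : ra S 6 ≤ ra S (k + 1) := ra_mono S hS6 (by omega)
        omega
      have h3 : ra S 6 ≤ 141 := by
        have := ra_two S 6 hS6
        omega
      have h4 : 141 ≤ ra S (k + 6) := by
        have h5 := ra_two S 7 hS6
        have : ra S 7 ≤ ra S (k + 6) := ra_mono S hS6 (by omega)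
        omega
      exact coeff_of_checkJ _ _ (ra_mono S hS6) (ra_ge S hS6) (ra_le_rb S) _ (by simp) k 6 141 h4
        (check_F S (List.mem_range.mpr (by omega)) k (List.mem_range.mpr hk6) hS1 hk) n (by omega)
    · rw [coeff_th_mul _ _ (ra_ge S hS6) (rb_ge S hS6) k n (n + 1) le_rfl]
      have hSq : (1 : ℚ) ≤ S := by exact_mod_cast hS1
      have hSq6 : (S : ℚ) ≤ 6 := by exact_mod_cast hS6
      refine (pos_main (7 / 2) S ((S : ℚ) / 2 - 7 / 8) 219 25 14490 396 _ (by norm_num)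
        (by linarith) (by linarith) (by norm_num) (by norm_num) (by norm_num) ?_ _ _
        (ra_cast S hS6) (rb_cast S hS6) (ra_ge S hS6)
        (rb_ge S hS6) (ra_mono S hS6) (rb_mono S hS6) (rb_le S hS6) 6 (by norm_num)
        (by push_cast; linarith) (by push_cast; linarith)
        (fun k K a b c => fin_F S hS1 hS6 k K a b c) k n (n + 1) hk h2 h1 le_rfl).le
      intro m
      have := noise_to_rat 1 4 9 11 14490 (fun m => by exact_mod_cast noise_14911 m) m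
      norm_num at this
      rw [show (48 : ℚ) * 396 = 19008 by norm_num]
      exact this

theorem G_nonneg (S : ℕ) (hS1 : 1 ≤ S) (hS6 : S ≤ 6) (k : ℕ) (hk : 1 ≤ k) :
    NN (th (ra S) (rb S) k * geoL [2, 3, 7, 13]) := by
  intro n
  rcases Nat.lt_or_ge n (ra S (k + 1)) with h1 | h1
  · rw [coeff_th_mul _ _ (ra_ge S hS6) (rb_ge S hS6) k n (n + 1) le_rfl,
      sum_small _ _ _ (ra_mono S hS6) (ra_le_rb S) k n (n + 1) (by omega) h1]
    have hg : geoL [2, 3, 7, 13] = geo 7 * geo 13 * geo 2 * geo 3 := by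
      simp only [geoL, mul_one]; ring
    rw [hg]
    have hNN : NN (geo 7 * geo 13) := (NN.geo 7).mul (NN.geo 13)
    refine ext_sub_nonneg2 _ (fun l hl m => step_two_three hNN l hl m)
      ((hNN.mul (NN.geo 2)).mul (NN.geo 3)) n _ _ ?_
    rw [rb_eq]
    have : 3 * 1 ≤ (2 * k + 1) * S := Nat.mul_le_mul (by omega) hS1
    omega
  · rcases Nat.lt_or_ge n (ra S 6) with h2 | h2
    · have hk6 : k < 6 := by
        by_contra hcon
        have : ra S 6 ≤ ra S (k + 1) := ra_mono S hS6 (by omega)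
        omega
      have h3 : ra S 6 ≤ 141 := by
        have := ra_two S 6 hS6
        omega
      have h4 : 141 ≤ ra S (k + 6) := by
        have h5 := ra_two S 7 hS6
        have : ra S 7 ≤ ra S (k + 6) := ra_mono S hS6 (by omega)
        omega
      exact coeff_of_checkJ _ _ (ra_mono S hS6) (ra_ge S hS6) (ra_le_rb S) _ (by simp) k 6 141 h4
        (check_G S (List.mem_range.mpr (by omega)) k (List.mem_range.mpr hk6) hS1 hk) n (by omega)
    · rw [coeff_th_mul _ _ (ra_ge S hS6) (rb_ge S hS6) k n (n + 1) le_rfl]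
      have hSq : (1 : ℚ) ≤ S := by exact_mod_cast hS1
      have hSq6 : (S : ℚ) ≤ 6 := by exact_mod_cast hS6
      refine (pos_main (7 / 2) S ((S : ℚ) / 2 - 7 / 8) 231 25 16358 546 _ (by norm_num)
        (by linarith) (by linarith) (by norm_num) (by norm_num) (by norm_num) ?_ _ _
        (ra_cast S hS6) (rb_cast S hS6) (ra_ge S hS6)
        (rb_ge S hS6) (ra_mono S hS6) (rb_mono S hS6) (rb_le S hS6) 6 (by norm_num)
        (by push_cast; linarith) (by push_cast; linarith)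
        (fun k K a b c => fin_G S hS1 hS6 k K a b c) k n (n + 1) hk h2 h1 le_rfl).le
      intro m
      have := noise_to_rat 2 3 7 13 16358 (fun m => by exact_mod_cast noise_23713 m) m
      norm_num at this
      rw [show (48 : ℚ) * 546 = 26208 by norm_num]
      exact this

end Pool.Agent.X13.TT
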