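import Pool.Agent.X13.TT.Core
import Pool.Agent.X13.TT.Series

/-!
# Truncated theta series over four pairwise coprime parts: positivity
-/

namespace Pool.Agent.X13.TT

open Finset PowerSeries

/-- coefficient of `q^n` in `∑_{j ≥ 0} (-1)^j (q^{a(k+j)} - q^{b(k+j)})` (for `a j, b j ≥ j`) -/
def thc (a b : ℕ → ℕ) (k n : ℕ) : ℤ :=
  ∑ j ∈ range (n + 1), (-1) ^ j * ((if a (k + j) = n then 1 else 0)
    - (if b (k + j) = n then 1 else 0))

/-- `∑_{j ≥ 0} (-1)^j (q^{a(k+j)} - q^{b(k+j)})` -/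
noncomputable def th (a b : ℕ → ℕ) (k : ℕ) : ℤ⟦X⟧ := PowerSeries.mk (thc a b k)

theorem coeff_th_mul (a b : ℕ → ℕ) (ha : ∀ j, j ≤ a j) (hb : ∀ j, j ≤ b j) (k n M : ℕ)
    (hM : n + 1 ≤ M) (φ : ℤ⟦X⟧) :
    coeff n (th a b k * φ) = ∑ j ∈ range M, (-1 : ℤ) ^ j *
      (ext (fun m => coeff m φ) n (a (k + j)) - ext (fun m => coeff m φ) n (b (k + j))) := by
  set θ : ℤ⟦X⟧ := ∑ j ∈ range M, ((-1 : ℤ) ^ j) • ((X : ℤ⟦X⟧) ^ (a (k + j)) - X ^ (b (k + j)))
    with hθ
  have h1 : ∀ i, i ≤ n → coeff i (th a b k) = coeff i θ := by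
    intro i hi
    rw [hθ, map_sum, th, coeff_mk, thc]
    rw [← sum_subset (range_subset_range.mpr (show i + 1 ≤ M by omega))]
    · refine sum_congr rfl fun j _ => ?_
      rw [map_smul, map_sub, coeff_X_pow, coeff_X_pow, smul_eq_mul]
      simp only [eq_comm]
    · intro j _ hj
      rw [mem_range, not_lt] at hj
      rw [map_smul, map_sub, coeff_X_pow, coeff_X_pow]
      have := ha (k + j)
      have := hb (k + j)
      rw [if_neg (by omega), if_neg (by omega)]; simp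
  have h2 : coeff n (th a b k * φ) = coeff n (θ * φ) := by
    rw [coeff_mul, coeff_mul]
    refine sum_congr rfl fun p hp => ?_
    have hp2 : p.1 + p.2 = n := Finset.HasAntidiagonal.mem_antidiagonal.mp hp
    rw [h1 p.1 (by omega)]
  rw [h2, hθ, sum_mul, map_sum]
  refine sum_congr rfl fun j _ => ?_
  rw [smul_mul_assoc, map_smul, smul_eq_mul, sub_mul, map_sub, coeff_X_pow_mul',
    coeff_X_pow_mul']
  rfl

theorem exists_index (a : ℕ → ℕ) (ha : ∀ j, j ≤ a j) (n : ℕ) (h0 : a 0 ≤ n) :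
    ∃ K, a K ≤ n ∧ n < a (K + 1) := by
  classical
  have hex : ∃ j, n < a j := ⟨n + 1, lt_of_lt_of_le (Nat.lt_succ_self n) (ha _)⟩
  have hpos : Nat.find hex ≠ 0 := by
    intro h
    have := Nat.find_spec hex
    rw [h] at this
    omega
  obtain ⟨K, hK⟩ := Nat.exists_eq_succ_of_ne_zero hpos
  refine ⟨K, ?_, ?_⟩
  · have := Nat.find_min hex (m := K) (by omega)
    omega
  · have := Nat.find_spec hex
    rwa [hK] at this

theorem R4_mono (A Q : ℚ) (hA : 0 < A) {v w : ℚ} (hv : 0 ≤ v) (h : v ≤ w) : R4 A Q v ≤ R4 A Q w := by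
  unfold R4
  gcongr

/-- positivity for large `n` -/
theorem pos_main (A B C : ℚ) (Q s η D : ℚ) (c : ℕ → ℤ) (hA : 0 < A) (hB : 0 ≤ B)
    (hBA : B ≤ 2 * A) (hs : 0 ≤ s) (hD : 0 < D) (hη : 0 ≤ η)
    (hc : ∀ m : ℕ, |48 * D * (c m : ℚ) - P4 Q (2 * m + s)| ≤ η)
    (a b : ℕ → ℕ) (ha : ∀ j : ℕ, (a j : ℚ) = A * (j + 1 / 2) ^ 2 - B * (j + 1 / 2) + C)
    (hb : ∀ j : ℕ, (b j : ℚ) = A * (j + 1 / 2) ^ 2 + B * (j + 1 / 2) + C)
    (haj : ∀ j, j ≤ a j) (hbj : ∀ j, j ≤ b j)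
    (ham : Monotone a) (hbm : Monotone b) (hab : ∀ j, b j ≤ a (j + 2)) (K1 : ℕ) (hK1 : 2 ≤ K1)
    (hva : A + s ≤ 2 * A * (K1 + 1) - B) (hvb : A + s ≤ 2 * A * (K1 - 1) + B)
    (hfin : ∀ k K : ℕ, 1 ≤ k → k < K → K1 ≤ K →
      2 * (R4 A Q (K + 1 + B / (2 * A)) + η * ((K : ℚ) + 1 - k)) <
      24 * B * k * ((A * ((K : ℚ) + 1 / 2) ^ 2 - B * ((K : ℚ) + 1 / 2) + s / 2
          - A * ((k : ℚ) ^ 2 - 3 / 4)) ^ 2 - (A ^ 2 - B ^ 2 / 3) * (k : ℚ) ^ 2
          + (A ^ 2 - B ^ 2 / 4 - Q / 12)))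
    (k n M : ℕ) (hk : 1 ≤ k) (hn : a K1 ≤ n) (hkn : a (k + 1) ≤ n) (hM : n + 1 ≤ M) :
    0 < ∑ j ∈ range M, (-1 : ℤ) ^ j * (ext c n (a (k + j)) - ext c n (b (k + j))) := by
  have hA' : A ≠ 0 := hA.ne'
  obtain ⟨Ka, hKa1, hKa2⟩ := exists_index a haj n ((ham (Nat.zero_le _)).trans hn)
  have hab' : ∀ j, a j ≤ b j := by
    intro j
    have h1 := ha j
    have h2 := hb j
    have : (a j : ℚ) ≤ b j := by
      rw [h1, h2]
      have : 0 ≤ B * ((j : ℚ) + 1 / 2) := by positivity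
      linarith
    exact_mod_cast this
  have hKaK1 : K1 ≤ Ka := by
    by_contra h
    push Not at h
    have : a (Ka + 1) ≤ a K1 := ham (by omega)
    omega
  have hkKa : k + 1 ≤ Ka := by
    by_contra h
    push Not at h
    have : a (Ka + 1) ≤ a (k + 1) := ham (by omega)
    omega
  obtain ⟨Kb, hKb1, hKb2⟩ := exists_index b hbj n
    (((hab 0).trans (ham (by omega : 0 + 2 ≤ K1))).trans hn)
  have hKbKa : Kb ≤ Ka := by
    by_contra h
    push Not at h
    have h1 : a (Ka + 1) ≤ a Kb := ham (by omega)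
    have := hab' Kb
    omega
  have hKbl : Ka ≤ Kb + 2 := by
    by_contra h
    push Not at h
    have h1 : b (Kb + 1) ≤ a (Kb + 1 + 2) := hab _
    have h2 : a (Kb + 1 + 2) ≤ a Ka := ham (by omega)
    omega
  have hkb : k ≤ Kb + 1 := by omega
  have hKan : Ka ≤ n := (haj Ka).trans hKa1
  have hKaq : (K1 : ℚ) ≤ Ka := by exact_mod_cast hKaK1
  have hKbq : (Ka : ℚ) ≤ Kb + 2 := by exact_mod_cast hKbl
  have hKbq2 : (Kb : ℚ) ≤ Ka := by exact_mod_cast hKbKa
  have hk1q : (1 : ℚ) ≤ k := by exact_mod_cast hk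
  have hkKaq : (k : ℚ) + 1 ≤ Ka := by exact_mod_cast hkKa
  have hL := lower A B C Q s η D c hA hs hc a b ha hb ham hbm k Ka Kb n M (by omega) hKa1 hKa2
    hkb hKb1 hKb2 (by omega) (by omega)
    (by
      have e : 2 * A * ((Ka : ℚ) + 1 - B / (2 * A)) = 2 * A * (Ka + 1) - B := by field_simp
      rw [e]; nlinarith)
    (by
      have e : 2 * A * ((Kb : ℚ) + 1 + B / (2 * A)) = 2 * A * (Kb + 1) + B := by field_simp
      rw [e]; nlinarith)
  have hf := hfin k Ka hk (by omega) hKaK1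
  have hB2 : 0 ≤ B / (2 * A) := by positivity
  have hB3 : B / (2 * A) ≤ 1 := by rw [div_le_one (by positivity)]; exact hBA
  have hKa0 : (0 : ℚ) ≤ Ka := Nat.cast_nonneg _
  have hKb0 : (0 : ℚ) ≤ Kb := Nat.cast_nonneg _
  have r1 : R4 A Q (Ka + 1 - B / (2 * A)) ≤ R4 A Q (Ka + 1 + B / (2 * A)) :=
    R4_mono A Q hA (by linarith) (by linarith)
  have r2 : R4 A Q (Kb + 1 + B / (2 * A)) ≤ R4 A Q (Ka + 1 + B / (2 * A)) :=
    R4_mono A Q hA (by linarith) (by linarith)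
  have r3 : η * ((Kb : ℚ) + 1 - k) ≤ η * ((Ka : ℚ) + 1 - k) :=
    mul_le_mul_of_nonneg_left (by linarith) hη
  have hnq : (a Ka : ℚ) ≤ n := by exact_mod_cast hKa1
  rw [ha Ka] at hnq
  set Y0 := A * ((Ka : ℚ) + 1 / 2) ^ 2 - B * ((Ka : ℚ) + 1 / 2) + s / 2
          - A * ((k : ℚ) ^ 2 - 3 / 4) with hY0
  set Y := (n : ℚ) + s / 2 - C - A * ((k : ℚ) ^ 2 - 3 / 4) with hY
  have hYY : Y0 ≤ Y := by rw [hY0, hY]; linarith
  have hY0n : 0 ≤ Y0 := by
    rw [hY0]
    have h1 : B * ((Ka : ℚ) + 1 / 2) ≤ 2 * A * ((Ka : ℚ) + 1 / 2) :=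
      mul_le_mul_of_nonneg_right hBA (by linarith)
    have h2 : A * (k : ℚ) ^ 2 ≤ A * ((Ka : ℚ) - 1) ^ 2 := by
      apply mul_le_mul_of_nonneg_left _ hA.le
      apply pow_le_pow_left₀ (by linarith)
      linarith
    have h3 : 0 ≤ A * ((Ka : ℚ) - 1) := mul_nonneg hA.le (by linarith)
    have h4 : A * ((Ka : ℚ) + 1 / 2) ^ 2 - B * ((Ka : ℚ) + 1 / 2) + s / 2
          - A * ((k : ℚ) ^ 2 - 3 / 4) = A * ((Ka : ℚ) - 1) + s / 2
          + (2 * A * ((Ka : ℚ) + 1 / 2) - B * ((Ka : ℚ) + 1 / 2))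
          + (A * ((Ka : ℚ) - 1) ^ 2 - A * (k : ℚ) ^ 2) := by ring
    rw [h4]
    have h5 : 0 ≤ s / 2 := by positivity
    linarith
  have hsq : Y0 ^ 2 ≤ Y ^ 2 := pow_le_pow_left₀ hY0n hYY 2
  have hBk : 0 ≤ 24 * B * (k : ℚ) := by positivity
  have hcomp : 24 * B * (k : ℚ) * (Y0 ^ 2 - (A ^ 2 - B ^ 2 / 3) * (k : ℚ) ^ 2
          + (A ^ 2 - B ^ 2 / 4 - Q / 12))
      ≤ 24 * B * (k : ℚ) * (Y ^ 2 - (A ^ 2 - B ^ 2 / 3) * (k : ℚ) ^ 2
          + (A ^ 2 - B ^ 2 / 4 - Q / 12)) :=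
    mul_le_mul_of_nonneg_left (by linarith) hBk
  have hpos : 0 < 48 * D * ((∑ j ∈ range M, (-1 : ℤ) ^ j *
      (ext c n (a (k + j)) - ext c n (b (k + j))) : ℤ) : ℚ) := by
    refine lt_of_lt_of_le ?_ hL
    linarith
  have h48 : 0 < 48 * D := by positivity
  have := pos_of_mul_pos_right hpos h48.le
  exact_mod_cast this

theorem sum_small (c : ℕ → ℤ) (a b : ℕ → ℕ) (ham : Monotone a) (hab' : ∀ j, a j ≤ b j)
    (k n M : ℕ) (hM : 1 ≤ M) (hkn : n < a (k + 1)) :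
    ∑ j ∈ range M, (-1 : ℤ) ^ j * (ext c n (a (k + j)) - ext c n (b (k + j)))
      = ext c n (a k) - ext c n (b k) := by
  rw [← sum_subset (range_subset_range.mpr hM)]
  · simp
  · intro j _ hj
    rw [mem_range, not_lt] at hj
    have h1 : a (k + 1) ≤ a (k + j) := ham (by omega)
    have h2 := hab' (k + j)
    rw [ext, ext, if_neg (by omega), if_neg (by omega)]; simp

/-- the theta coefficients as a list -/
def thL (a b : ℕ → ℕ) (k len : ℕ) : List ℤ := (List.range len).map (thc a b k)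

theorem Rep_thL (a b : ℕ → ℕ) (k len : ℕ) : Rep (thL a b k len) (th a b k) := by
  intro i hi
  rw [thL, List.length_map, List.length_range] at hi
  rw [th, coeff_mk, thL, List.getD_eq_getElem?_getD, List.getElem?_map,
    List.getElem?_range (by simpa using hi)]
  rfl

theorem coeff_of_check (a b : ℕ → ℕ) (ds : List ℕ) (hds : ∀ d ∈ ds, 0 < d) (k len : ℕ)
    (h : ((dps ds (thL a b k len)).all fun x => decide (0 ≤ x)) = true) (n : ℕ) (hn : n < len) :
    0 ≤ coeff n (th a b k * geoL ds) := by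
  have hR := Rep.dps ds hds _ _ (Rep_thL a b k len)
  have hl : (dps ds (thL a b k len)).length = len := by
    rw [dps_length, thL, List.length_map, List.length_range]
  rw [hR n (by rw [hl]; exact hn)]
  rw [List.all_eq_true] at h
  rw [List.getD_eq_getElem _ _ (by rw [hl]; exact hn)]
  have := h _ (List.getElem_mem (l := dps ds (thL a b k len)) (by rw [hl]; exact hn))
  exact of_decide_eq_true this

/-- the theta coefficients with only `J` terms -/
def thcJ (a b : ℕ → ℕ) (k J n : ℕ) : ℤ :=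
  ((List.range J).map fun j => (-1 : ℤ) ^ j * ((if a (k + j) = n then 1 else 0)
    - (if b (k + j) = n then 1 else 0))).sum

/-- the theta coefficients as a list, faster version -/
def thLJ (a b : ℕ → ℕ) (k J len : ℕ) : List ℤ := (List.range len).map (thcJ a b k J)

theorem Rep_thLJ (a b : ℕ → ℕ) (ham : Monotone a) (haj : ∀ j, j ≤ a j) (hab : ∀ j, a j ≤ b j)
    (k J len : ℕ) (hJ : len ≤ a (k + J)) : Rep (thLJ a b k J len) (th a b k) := by
  intro i hi
  rw [thLJ, List.length_map, List.length_range] at hi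
  have e : coeff i (th a b k) = thcJ a b k J i := by
    rw [th, coeff_mk, thc, thcJ]
    have h1 : ((List.range J).map fun j => (-1 : ℤ) ^ j * ((if a (k + j) = i then 1 else 0)
        - (if b (k + j) = i then 1 else 0))).sum
        = ∑ j ∈ range J, (-1 : ℤ) ^ j * ((if a (k + j) = i then 1 else 0)
        - (if b (k + j) = i then 1 else 0)) := rfl
    rw [h1]
    have key : ∀ M, i < a (k + M) → ∑ j ∈ range M, (-1 : ℤ) ^ j * ((if a (k + j) = i then 1 else 0)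
        - (if b (k + j) = i then 1 else 0)) = ∑ j ∈ range (max M (max J (i + 1))),
          (-1 : ℤ) ^ j * ((if a (k + j) = i then 1 else 0)
        - (if b (k + j) = i then 1 else 0)) := by
      intro M hM
      refine sum_subset (range_subset_range.mpr (le_max_left _ _)) fun j _ hj => ?_
      rw [mem_range, not_lt] at hj
      have h2 : a (k + M) ≤ a (k + j) := ham (by omega)
      have h3 := hab (k + j)
      rw [if_neg (by omega), if_neg (by omega)]; simp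
    rw [key (i + 1) (by have := haj (k + (i + 1)); omega), key J (by omega)]
    congr 2
    omega
  rw [e, thLJ, List.getD_eq_getElem?_getD, List.getElem?_map,
    List.getElem?_range (by simpa using hi)]
  rfl

theorem coeff_of_checkJ (a b : ℕ → ℕ) (ham : Monotone a) (haj : ∀ j, j ≤ a j)
    (hab : ∀ j, a j ≤ b j) (ds : List ℕ) (hds : ∀ d ∈ ds, 0 < d) (k J len : ℕ)
    (hJ : len ≤ a (k + J))
    (h : ((dps ds (thLJ a b k J len)).all fun x => decide (0 ≤ x)) = true) (n : ℕ) (hn : n < len) :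
    0 ≤ coeff n (th a b k * geoL ds) := by
  have hR := Rep.dps ds hds _ _ (Rep_thLJ a b ham haj hab k J len hJ)
  have hl : (dps ds (thLJ a b k J len)).length = len := by
    rw [dps_length, thLJ, List.length_map, List.length_range]
  rw [hR n (by rw [hl]; exact hn)]
  rw [List.all_eq_true] at h
  rw [List.getD_eq_getElem _ _ (by rw [hl]; exact hn)]
  have := h _ (List.getElem_mem (l := dps ds (thLJ a b k J len)) (by rw [hl]; exact hn))
  exact of_decide_eq_true this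

end Pool.Agent.X13.TT
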